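import Mathlib

/-!
# Uniformly rich and poor points: definitions and the rising sun lemma
-/

set_option autoImplicit false

open Finset Filter Topology

namespace Pool.Agent.W5h31.UM

/-- `R_h(x) = (log x / h) (π(x + h) - π(x))` for `h = (log x) ^ a` -/
noncomputable def R (a x : ℝ) : ℝ :=
  Real.log x / Real.log x ^ a *
    ((Nat.primeCounting ⌊x + Real.log x ^ a⌋₊ : ℝ) - Nat.primeCounting ⌊x⌋₊)

/-- Every interval `[p, p + t)`, `0 < t ≤ T`, contains at least `V t / log p` primes. -/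
def RichT (V T : ℝ) (p : ℕ) : Prop :=
  ∀ t : ℝ, 0 < t → t ≤ T →
    V * t ≤ Real.log p * (Set.ncard {q : ℕ | q.Prime ∧ (q : ℝ) ∈ Set.Ico (p : ℝ) (p + t)} : ℝ)

/-- Every interval `(n, n + t]`, `0 < t ≤ T`, contains at most `V t / log n` primes. -/
def PoorT (V T : ℝ) (n : ℕ) : Prop :=
  ∀ t : ℝ, 0 < t → t ≤ T →
    Real.log n * (Set.ncard {q : ℕ | q.Prime ∧ (q : ℝ) ∈ Set.Ioc (n : ℝ) (n + t)} : ℝ) ≤ V * t

/-- Every interval `[p, p + t)`, `0 < t ≤ (log p) ^ A`, contains at least `V t / log p` primes. -/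
def Rich (V A : ℝ) (p : ℕ) : Prop := RichT V (Real.log p ^ A) p

/-- Every interval `(n, n + t]`, `0 < t ≤ (log n) ^ A`, contains at most `V t / log n` primes. -/
def Poor (V A : ℝ) (n : ℕ) : Prop := PoorT V (Real.log n ^ A) n

/-- the number of primes in `(n, n + j]` -/
def cp (n j : ℕ) : ℕ := ((Ioc n (n + j)).filter Nat.Prime).card

theorem pc_add (n j : ℕ) : Nat.primeCounting (n + j) = Nat.primeCounting n + cp n j := by
  unfold cp Nat.primeCounting Nat.primeCounting'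
  rw [Nat.count_eq_card_filter_range, Nat.count_eq_card_filter_range, ← card_union_of_disjoint]
  · congr 1
    ext q
    simp only [mem_filter, mem_range, mem_union, mem_Ioc]
    constructor
    · rintro ⟨h1, h2⟩
      by_cases h : q < n + 1
      · exact Or.inl ⟨h, h2⟩
      · exact Or.inr ⟨⟨by omega, by omega⟩, h2⟩
    · rintro (⟨h1, h2⟩ | ⟨⟨h1, h3⟩, h2⟩)
      · exact ⟨by omega, h2⟩
      · exact ⟨by omega, h2⟩
  · rw [disjoint_left]
    intro q h1 h2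
    simp only [mem_filter, mem_range, mem_Ioc] at h1 h2
    omega

theorem cp_le (n j : ℕ) : cp n j ≤ j := by
  unfold cp
  refine (card_filter_le _ _).trans ?_
  rw [Nat.card_Ioc]
  omega

theorem cp_add (n i j : ℕ) : cp n (i + j) = cp n i + cp (n + i) j := by
  have h1 := pc_add n (i + j)
  have h2 := pc_add n i
  have h3 := pc_add (n + i) j
  rw [← add_assoc] at h1
  omega

theorem set_ico (p : ℕ) (hp : 1 ≤ p) (t : ℝ) :
    Set.ncard {q : ℕ | q.Prime ∧ (q : ℝ) ∈ Set.Ico (p : ℝ) (p + t)} = cp (p - 1) ⌈t⌉₊ := by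
  classical
  unfold cp
  rw [← Set.ncard_coe_finset]
  congr 1
  ext q
  rw [Set.mem_ofPred_eq, mem_coe, mem_filter, mem_Ioc, Set.mem_Ico]
  constructor
  · rintro ⟨h1, h2, h3⟩
    have h4 : p ≤ q := by exact_mod_cast h2
    refine ⟨⟨by omega, ?_⟩, h1⟩
    have h5 : ((q - p : ℕ) : ℝ) < t := by
      rw [Nat.cast_sub h4]
      linarith
    have h6 := Nat.lt_ceil.2 h5
    omega
  · rintro ⟨⟨h1, h2⟩, h3⟩
    have h4 : p ≤ q := by omega
    refine ⟨h3, by exact_mod_cast h4, ?_⟩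
    have h5 : q - p < ⌈t⌉₊ := by omega
    have h6 := Nat.lt_ceil.1 h5
    rw [Nat.cast_sub h4] at h6
    linarith

theorem set_ioc (n : ℕ) (t : ℝ) (ht : 0 ≤ t) :
    Set.ncard {q : ℕ | q.Prime ∧ (q : ℝ) ∈ Set.Ioc (n : ℝ) (n + t)} = cp n ⌊t⌋₊ := by
  classical
  unfold cp
  rw [← Set.ncard_coe_finset]
  congr 1
  ext q
  rw [Set.mem_ofPred_eq, mem_coe, mem_filter, mem_Ioc, Set.mem_Ioc]
  constructor
  · rintro ⟨h1, h2, h3⟩
    have h4 : n < q := by exact_mod_cast h2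
    refine ⟨⟨h4, ?_⟩, h1⟩
    have h5 : ((q - n : ℕ) : ℝ) ≤ t := by
      rw [Nat.cast_sub h4.le]
      linarith
    have h6 := Nat.le_floor h5
    omega
  · rintro ⟨⟨h1, h2⟩, h3⟩
    refine ⟨h3, by exact_mod_cast h1, ?_⟩
    have h5 : q - n ≤ ⌊t⌋₊ := by omega
    have h6 := (Nat.le_floor_iff ht).1 h5
    rw [Nat.cast_sub h1.le] at h6
    linarith

/-- the point where a function on `{0, …, H}` takes its smallest value -/
theorem argmin (g : ℕ → ℝ) (H : ℕ) :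
    ∃ j₀ ≤ H, ∀ j ≤ H, g j₀ ≤ g j := by
  obtain ⟨j₀, hj₀, h⟩ := exists_min_image (range (H + 1)) g ⟨0, by simp⟩
  refine ⟨j₀, by simpa [Nat.lt_succ_iff] using hj₀, fun j hj => h j (by simp; omega)⟩

theorem cp_mono (n : ℕ) {i j : ℕ} (h : i ≤ j) : cp n i ≤ cp n j := by
  obtain ⟨r, rfl⟩ := Nat.exists_eq_add_of_le h
  rw [cp_add]
  omega

/-- **Rising sun, upper form.** -/
theorem sun_up (n H : ℕ) (l V V' : ℝ) (hl : 0 < l) (hV : 0 < V) (h : V' * H ≤ l * cp n H) :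
    ∃ j₀ ≤ H, ∀ j : ℕ, V * j ≤ (V' - V) * H → V * j ≤ l * cp (n + j₀) j := by
  obtain ⟨j₀, hj₀, hmin⟩ := argmin (fun j => l * cp n j - V * j) H
  have e : cp n 0 = 0 := by simp [cp]
  refine ⟨j₀, hj₀, fun j hj => ?_⟩
  rcases le_or_gt j (H - j₀) with hc | hc
  · have h1 := hmin (j₀ + j) (by omega)
    have h2 := cp_add n j₀ j
    have h3 : (cp n (j₀ + j) : ℝ) = cp n j₀ + cp (n + j₀) j := by exact_mod_cast h2
    simp only [h3] at h1
    push_cast at h1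
    nlinarith
  · have h0 := hmin 0 (Nat.zero_le _)
    simp only [e, Nat.cast_zero, mul_zero, sub_zero] at h0
    have h1 := cp_add n j₀ (H - j₀)
    rw [Nat.add_sub_cancel' hj₀] at h1
    have h2 : (cp n H : ℝ) = cp n j₀ + cp (n + j₀) (H - j₀) := by exact_mod_cast h1
    have h3 : (cp (n + j₀) (H - j₀) : ℝ) ≤ cp (n + j₀) j := by exact_mod_cast cp_mono _ hc.le
    rw [h2] at h
    have h4 := mul_le_mul_of_nonneg_left h3 hl.le
    have h5 : (j₀ : ℝ) ≤ H := by exact_mod_cast hj₀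
    have h6 := mul_le_mul_of_nonneg_left h5 hV.le
    linarith

/-- **Rising sun, lower form.** -/
theorem sun_down (n H : ℕ) (l V V' : ℝ) (hl : 0 < l) (hV : 0 < V) (h : l * cp n H ≤ V' * H) :
    ∃ j₀ ≤ H, ∀ j : ℕ, V * j ≤ (V - V') * H → l * cp (n + j₀) j ≤ V * j := by
  obtain ⟨j₀, hj₀, hmin⟩ := argmin (fun j => V * j - l * cp n j) H
  have e : cp n 0 = 0 := by simp [cp]
  have hlong : (V - V') * H ≤ V * ((H - j₀ : ℕ) : ℝ) := by
    have h0 := hmin 0 (Nat.zero_le _)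
    simp only [e, Nat.cast_zero, mul_zero, sub_zero] at h0
    have h1 := cp_add n j₀ (H - j₀)
    rw [Nat.add_sub_cancel' hj₀] at h1
    have h2 : (cp n H : ℝ) = cp n j₀ + cp (n + j₀) (H - j₀) := by exact_mod_cast h1
    rw [h2] at h
    have h4 : 0 ≤ l * (cp (n + j₀) (H - j₀) : ℝ) := by positivity
    rw [Nat.cast_sub hj₀]
    nlinarith
  refine ⟨j₀, hj₀, fun j hj => ?_⟩
  have hjH : j ≤ H - j₀ := by
    have h1 := le_of_mul_le_mul_left (hj.trans hlong) hV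
    exact_mod_cast h1
  have h1 := hmin (j₀ + j) (by omega)
  have h2 := cp_add n j₀ j
  have h3 : (cp n (j₀ + j) : ℝ) = cp n j₀ + cp (n + j₀) j := by exact_mod_cast h2
  simp only [h3] at h1
  push_cast at h1
  nlinarith

/-! ### large `x` -/

theorem ev_pow (s K : ℝ) (hs : 0 < s) : ∀ᶠ x : ℝ in atTop, K ≤ Real.log x ^ s :=
  ((tendsto_rpow_atTop hs).comp Real.tendsto_log_atTop).eventually (eventually_ge_atTop K)

theorem ev_small (b : ℝ) : ∀ᶠ x : ℝ in atTop, Real.log x ^ b + 2 ≤ x := by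
  have h1 := isLittleO_log_rpow_rpow_atTop b (one_pos : (0:ℝ) < 1)
  have h2 := h1.bound (by norm_num : (0:ℝ) < 1 / 2)
  filter_upwards [h2, eventually_ge_atTop (4:ℝ)] with x hx h4
  rw [Real.rpow_one] at hx
  have h5 : Real.log x ^ b ≤ ‖Real.log x ^ b‖ := le_abs_self _
  rw [Real.norm_eq_abs x, abs_of_nonneg (by linarith)] at hx
  linarith

/-- the number `H = ⌊x + h⌋ - ⌊x⌋` -/
theorem fl_eq (x h : ℝ) (hx : 0 ≤ x) (hh : 0 < h) :
    ∃ H : ℕ, (H : ℝ) < h + 1 ∧ h - 1 < H ∧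
      (Nat.primeCounting ⌊x + h⌋₊ : ℝ) - Nat.primeCounting ⌊x⌋₊ = cp ⌊x⌋₊ H := by
  have h1 : ⌊x⌋₊ ≤ ⌊x + h⌋₊ := Nat.floor_mono (by linarith)
  obtain ⟨H, hH⟩ := Nat.exists_eq_add_of_le h1
  have hH' : ((⌊x + h⌋₊ : ℕ) : ℝ) = ⌊x⌋₊ + H := by exact_mod_cast hH
  have a1 := Nat.floor_le (by linarith : 0 ≤ x + h)
  have a2 := Nat.lt_floor_add_one (x + h)
  have a3 := Nat.floor_le hx
  have a4 := Nat.lt_floor_add_one x
  refine ⟨H, by linarith, by linarith, ?_⟩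
  rw [hH, pc_add]
  push_cast
  ring

end Pool.Agent.W5h31.UM
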