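import Pool.Agent.W5h31.UM.UM1

/-!
# From one long interval to points which are rich or poor at all scales
-/

set_option autoImplicit false

open Finset Filter Topology

namespace Pool.Agent.W5h31.UM

theorem rich_gen (V V' : ℝ) (hV : 0 < V) (hVV : V < V') :
    ∃ κ K : ℝ, 0 < κ ∧ ∀ᶠ x : ℝ in atTop, ∀ h : ℝ, K ≤ h →
      V' * h ≤ Real.log x * ((Nat.primeCounting ⌊x + h⌋₊ : ℝ) - Nat.primeCounting ⌊x⌋₊) →
      ∃ p : ℕ, x < p ∧ (p : ℝ) ≤ x + h + 2 ∧ RichT V (κ * h) p := by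
  obtain ⟨V₁, hV₁⟩ : ∃ V₁ : ℝ, V₁ = (V + V') / 2 := ⟨_, rfl⟩
  have h1 : V < V₁ := by linarith
  have h2 : V₁ < V' := by linarith
  have hd : 0 < V₁ - V := by linarith
  have hd' : 0 < V' - V₁ := by linarith
  have hq1 : 0 < V' / (V' - V₁) := div_pos (by linarith) hd'
  have hq2 : 0 < 2 * V₁ / (V₁ - V) := div_pos (by linarith) hd
  refine ⟨(V₁ - V) / (2 * V), 2 + V' / (V' - V₁) + 2 * V₁ / (V₁ - V), by positivity, ?_⟩
  filter_upwards [eventually_ge_atTop (4:ℝ)] with x hx h hK hR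
  have hh0 : 0 < h := by linarith
  have hl : 0 < Real.log x := Real.log_pos (by linarith)
  obtain ⟨H, hHu, hHl, hRe⟩ := fl_eq x h (by linarith) hh0
  rw [hRe] at hR
  obtain ⟨n, hn⟩ : ∃ n : ℕ, n = ⌊x⌋₊ := ⟨_, rfl⟩
  rw [← hn] at hR
  have hH0 : 0 ≤ (H : ℝ) := Nat.cast_nonneg _
  have k1 : V₁ * H ≤ Real.log x * cp n H := by
    refine le_trans ?_ hR
    have k3 : V' / (V' - V₁) ≤ H := by linarith
    rw [div_le_iff₀ hd'] at k3
    nlinarith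
  obtain ⟨j₀, hj₀, hj⟩ := sun_up n H (Real.log x) V V₁ hl hV k1
  have a3 := Nat.floor_le (by linarith : 0 ≤ x)
  have a4 := Nat.lt_floor_add_one x
  rw [← hn] at a3 a4
  have hj₀' : (j₀ : ℝ) ≤ H := by exact_mod_cast hj₀
  have hj00 : (0:ℝ) ≤ j₀ := Nat.cast_nonneg _
  have hp1 : x < ((n + j₀ + 1 : ℕ) : ℝ) := by
    push_cast
    linarith
  have hp2 : ((n + j₀ + 1 : ℕ) : ℝ) ≤ x + h + 2 := by
    push_cast
    linarith
  refine ⟨n + j₀ + 1, hp1, hp2, ?_⟩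
  intro t ht htA
  have hlp : Real.log x ≤ Real.log ((n + j₀ + 1 : ℕ) : ℝ) :=
    Real.log_le_log (by linarith) hp1.le
  rw [set_ico (n + j₀ + 1) (by omega) t, Nat.add_sub_cancel]
  have hceil := Nat.ceil_lt_add_one ht.le
  have c1 := hj ⌈t⌉₊ (by
    have b1 : V * (⌈t⌉₊ : ℝ) ≤ V * ((V₁ - V) / (2 * V) * h + 1) :=
      mul_le_mul_of_nonneg_left (by linarith) hV.le
    have b2 : V * ((V₁ - V) / (2 * V) * h + 1) = (V₁ - V) * h / 2 + V := by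
      field_simp
    rw [b2] at b1
    have b3 : 2 * V₁ / (V₁ - V) ≤ h := by linarith
    rw [div_le_iff₀ hd] at b3
    have b4 : (V₁ - V) * (h - 1) ≤ (V₁ - V) * H := mul_le_mul_of_nonneg_left hHl.le hd.le
    nlinarith)
  have c2 : V * t ≤ V * ⌈t⌉₊ := mul_le_mul_of_nonneg_left (Nat.le_ceil t) hV.le
  have c3 : Real.log x * (cp (n + j₀) ⌈t⌉₊ : ℝ) ≤
      Real.log ((n + j₀ + 1 : ℕ) : ℝ) * (cp (n + j₀) ⌈t⌉₊ : ℝ) :=
    mul_le_mul_of_nonneg_right hlp (Nat.cast_nonneg _)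
  linarith

theorem poor_gen (V V' : ℝ) (hVV : V' < V) :
    ∃ κ K : ℝ, 0 < κ ∧ ∀ᶠ x : ℝ in atTop, ∀ h : ℝ, K ≤ h → h ≤ x →
      Real.log x * ((Nat.primeCounting ⌊x + h⌋₊ : ℝ) - Nat.primeCounting ⌊x⌋₊) ≤ V' * h →
      ∃ m : ℕ, x < m + 1 ∧ (m : ℝ) ≤ x + h + 2 ∧ PoorT V (κ * h) m := by
  by_cases hV' : V' < 0
  · refine ⟨1, 1, one_pos, ?_⟩
    filter_upwards [eventually_ge_atTop (4:ℝ)] with x hx h hK hhx hR
    exfalso
    have hl : 0 < Real.log x := Real.log_pos (by linarith)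
    obtain ⟨H, hHu, hHl, hRe⟩ := fl_eq x h (by linarith) (by linarith)
    rw [hRe] at hR
    have h1 : 0 ≤ Real.log x * (cp ⌊x⌋₊ H : ℝ) := by positivity
    nlinarith
  push Not at hV'
  obtain ⟨V₁, hV₁⟩ : ∃ V₁ : ℝ, V₁ = (2 * V' + V) / 3 := ⟨_, rfl⟩
  obtain ⟨V₂, hV₂⟩ : ∃ V₂ : ℝ, V₂ = (V' + 2 * V) / 3 := ⟨_, rfl⟩
  have hV0 : 0 < V := by linarith
  have h1 : V' < V₁ := by linarith
  have h2 : V₁ < V₂ := by linarith
  have h3 : V₂ < V := by linarith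
  have hV20 : 0 < V₂ := by linarith
  have hd : 0 < V₂ - V₁ := by linarith
  have hd' : 0 < V₁ - V' := by linarith
  have hVd : 0 < V / V₂ - 1 := by
    rw [sub_pos, lt_div_iff₀ hV20]
    linarith
  have hq1 : 0 ≤ V' / (V₁ - V') := div_nonneg hV' hd'.le
  refine ⟨(V₂ - V₁) / (2 * V₂), 2 + V' / (V₁ - V'), by positivity, ?_⟩
  filter_upwards [eventually_ge_atTop (4:ℝ),
    ev_pow 1 (Real.log 3 / (V / V₂ - 1)) one_pos] with x hx hl3 h hK hhx hR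
  rw [Real.rpow_one] at hl3
  have hh0 : 0 < h := by linarith
  have hl : 0 < Real.log x := Real.log_pos (by linarith)
  obtain ⟨H, hHu, hHl, hRe⟩ := fl_eq x h (by linarith) hh0
  rw [hRe] at hR
  obtain ⟨n, hn⟩ : ∃ n : ℕ, n = ⌊x⌋₊ := ⟨_, rfl⟩
  rw [← hn] at hR
  have hH0 : 0 ≤ (H : ℝ) := Nat.cast_nonneg _
  have k1 : Real.log x * cp n H ≤ V₁ * H := by
    refine hR.trans ?_
    have k3 : V' / (V₁ - V') ≤ H := by linarith
    rw [div_le_iff₀ hd'] at k3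
    nlinarith
  obtain ⟨j₀, hj₀, hj⟩ := sun_down n H (Real.log x) V₂ V₁ hl hV20 k1
  have a3 := Nat.floor_le (by linarith : 0 ≤ x)
  have a4 := Nat.lt_floor_add_one x
  rw [← hn] at a3 a4
  have hj₀' : (j₀ : ℝ) ≤ H := by exact_mod_cast hj₀
  have hj00 : (0:ℝ) ≤ j₀ := Nat.cast_nonneg _
  have hm1 : x < ((n + j₀ : ℕ) : ℝ) + 1 := by
    push_cast
    linarith
  have hm2 : ((n + j₀ : ℕ) : ℝ) ≤ x + h + 1 := by
    push_cast
    linarith
  refine ⟨n + j₀, hm1, by linarith, ?_⟩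
  intro t ht htA
  have hm0 : (0:ℝ) < ((n + j₀ : ℕ) : ℝ) := by linarith
  have hlm : Real.log ((n + j₀ : ℕ) : ℝ) ≤ V / V₂ * Real.log x := by
    have c1 : Real.log ((n + j₀ : ℕ) : ℝ) ≤ Real.log (3 * x) :=
      Real.log_le_log hm0 (by linarith)
    rw [Real.log_mul (by norm_num) (by linarith)] at c1
    rw [div_le_iff₀ hVd] at hl3
    linarith
  rw [set_ioc (n + j₀) t ht.le]
  have hfl := Nat.floor_le ht.le
  have c1 := hj ⌊t⌋₊ (by
    have b1 : V₂ * (⌊t⌋₊ : ℝ) ≤ V₂ * ((V₂ - V₁) / (2 * V₂) * h) :=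
      mul_le_mul_of_nonneg_left (by linarith) hV20.le
    have b2 : V₂ * ((V₂ - V₁) / (2 * V₂) * h) = (V₂ - V₁) * h / 2 := by
      field_simp
    rw [b2] at b1
    have b4 : (V₂ - V₁) * (h - 1) ≤ (V₂ - V₁) * H := mul_le_mul_of_nonneg_left hHl.le hd.le
    nlinarith)
  have c2 : V₂ * (⌊t⌋₊ : ℝ) ≤ V₂ * t := mul_le_mul_of_nonneg_left hfl hV20.le
  have c3 : Real.log ((n + j₀ : ℕ) : ℝ) * (cp (n + j₀) ⌊t⌋₊ : ℝ) ≤
      V / V₂ * Real.log x * (cp (n + j₀) ⌊t⌋₊ : ℝ) :=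
    mul_le_mul_of_nonneg_right hlm (Nat.cast_nonneg _)
  have c4 : V / V₂ * (Real.log x * (cp (n + j₀) ⌊t⌋₊ : ℝ)) ≤ V / V₂ * (V₂ * t) :=
    mul_le_mul_of_nonneg_left (c1.trans c2) (by positivity)
  have c5 : V / V₂ * (V₂ * t) = V * t := by field_simp
  nlinarith

theorem mono_richT {V T T' : ℝ} {p : ℕ} (hT : T ≤ T') (h : RichT V T' p) : RichT V T p :=
  fun t ht htT => h t ht (htT.trans hT)

theorem mono_poorT {V T T' : ℝ} {p : ℕ} (hT : T ≤ T') (h : PoorT V T' p) : PoorT V T p :=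
  fun t ht htT => h t ht (htT.trans hT)

theorem R_le_iff (b x V : ℝ) (hl : 0 < Real.log x) : V ≤ R b x ↔ V * Real.log x ^ b ≤
    Real.log x * ((Nat.primeCounting ⌊x + Real.log x ^ b⌋₊ : ℝ) - Nat.primeCounting ⌊x⌋₊) := by
  have hh : 0 < Real.log x ^ b := Real.rpow_pos_of_pos hl b
  unfold R
  rw [div_mul_eq_mul_div, le_div_iff₀ hh]

theorem R_ge_iff (b x V : ℝ) (hl : 0 < Real.log x) : R b x ≤ V ↔
    Real.log x * ((Nat.primeCounting ⌊x + Real.log x ^ b⌋₊ : ℝ) - Nat.primeCounting ⌊x⌋₊) ≤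
      V * Real.log x ^ b := by
  have hh : 0 < Real.log x ^ b := Real.rpow_pos_of_pos hl b
  unfold R
  rw [div_mul_eq_mul_div, div_le_iff₀ hh]

theorem pow_cmp (A b κ : ℝ) (hA : 0 < A) (hb : A < b) (hκ : 0 < κ) : ∀ᶠ x : ℝ in atTop,
    ∀ y : ℝ, 1 ≤ y → y ≤ x + Real.log x ^ b + 2 → Real.log y ^ A ≤ κ * Real.log x ^ b := by
  filter_upwards [eventually_ge_atTop (4:ℝ), ev_small b,
    ev_pow (b - A) (2 ^ A / κ) (by linarith)] with x hx hsm hE y hy0 hy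
  have hl : 0 < Real.log x := Real.log_pos (by linarith)
  have hly : Real.log y ≤ 2 * Real.log x := by
    rw [← Real.log_rpow (by linarith)]
    apply Real.log_le_log (by linarith)
    rw [Real.rpow_two]
    nlinarith
  rw [div_le_iff₀ hκ] at hE
  have h1 : Real.log y ^ A ≤ (2 * Real.log x) ^ A :=
    Real.rpow_le_rpow (Real.log_nonneg hy0) hly hA.le
  rw [Real.mul_rpow (by norm_num) hl.le] at h1
  have h2 : Real.log x ^ b = Real.log x ^ (b - A) * Real.log x ^ A := by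
    rw [← Real.rpow_add hl]
    congr 1
    ring
  have h3 : 0 < Real.log x ^ A := Real.rpow_pos_of_pos hl A
  have h4 := mul_le_mul_of_nonneg_right hE h3.le
  rw [h2]
  linarith

theorem rich_of (A b V V' : ℝ) (hA : 0 < A) (hb : A < b) (hV : 0 < V) (hVV : V < V') :
    ∀ᶠ x : ℝ in atTop, V' ≤ R b x →
      ∃ p : ℕ, x < p ∧ (p : ℝ) ≤ x + Real.log x ^ b + 2 ∧ Rich V A p := by
  obtain ⟨κ, K, hκ, hg⟩ := rich_gen V V' hV hVV
  filter_upwards [hg, eventually_ge_atTop (4:ℝ), ev_pow b K (by linarith),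
    pow_cmp A b κ hA hb hκ] with x h1 h2 h3 h4 hR
  have hl : 0 < Real.log x := Real.log_pos (by linarith)
  obtain ⟨p, hp1, hp2, hp3⟩ := h1 _ h3 ((R_le_iff b x V' hl).1 hR)
  exact ⟨p, hp1, hp2, mono_richT (h4 p (by linarith) hp2) hp3⟩

theorem poor_of (A b V V' : ℝ) (hA : 0 < A) (hb : A < b) (hVV : V' < V) :
    ∀ᶠ x : ℝ in atTop, R b x ≤ V' →
      ∃ m : ℕ, x < m + 1 ∧ (m : ℝ) ≤ x + Real.log x ^ b + 2 ∧ Poor V A m := by
  obtain ⟨κ, K, hκ, hg⟩ := poor_gen V V' hVV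
  filter_upwards [hg, eventually_ge_atTop (4:ℝ), ev_pow b K (by linarith), ev_small b,
    pow_cmp A b κ hA hb hκ] with x h1 h2 h3 h5 h4 hR
  have hl : 0 < Real.log x := Real.log_pos (by linarith)
  obtain ⟨p, hp1, hp2, hp3⟩ := h1 _ h3 (by linarith) ((R_ge_iff b x V' hl).1 hR)
  exact ⟨p, hp1, hp2, mono_poorT (h4 p (by linarith) hp2) hp3⟩

end Pool.Agent.W5h31.UM
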