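import Pool.Agent.W5h31.UM.UM2

/-!
# The question in terms of rich and poor points
-/

set_option autoImplicit false

open Finset Filter Topology

namespace Pool.Agent.W5h31.UM

/-- the question: `lim L_a = 1 = lim U_a` -/
def Q1 : Prop :=
  ∀ ε : ℝ, 0 < ε → ∃ a₀ : ℝ, ∀ a : ℝ, a₀ ≤ a → ∀ᶠ x : ℝ in atTop, |R a x - 1| ≤ ε

theorem R_nat (a : ℝ) (n : ℕ) (hl : 0 < Real.log n) :
    R a n * Real.log n ^ a = Real.log n * cp n ⌊Real.log n ^ a⌋₊ := by
  have hh : 0 < Real.log n ^ a := Real.rpow_pos_of_pos hl a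
  unfold R
  rw [add_comm (n : ℝ), Nat.floor_add_natCast hh.le, Nat.floor_natCast, add_comm _ n, pc_add]
  push_cast
  field_simp
  ring

theorem ev_nat {P : ℝ → Prop} (h : ∀ᶠ x : ℝ in atTop, P x) : ∀ᶠ n : ℕ in atTop, P n :=
  tendsto_natCast_atTop_atTop.eventually h

theorem mono_rich {V A A' : ℝ} {p : ℕ} (hl : 1 ≤ Real.log p) (hA : A ≤ A') (h : Rich V A' p) :
    Rich V A p :=
  fun t ht htA => h t ht (htA.trans (Real.rpow_le_rpow_of_exponent_le hl hA))

theorem mono_poor {V A A' : ℝ} {p : ℕ} (hl : 1 ≤ Real.log p) (hA : A ≤ A') (h : Poor V A' p) :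
    Poor V A p :=
  fun t ht htA => h t ht (htA.trans (Real.rpow_le_rpow_of_exponent_le hl hA))

theorem R_of_rich (a A V V' : ℝ) (ha : 1 < a) (haA : a ≤ A) (hVV : V' < V) :
    ∀ᶠ p : ℕ in atTop, Rich V A p → V' ≤ R a p := by
  filter_upwards [ev_nat (ev_pow 1 1 one_pos),
    ev_nat (ev_pow (a - 1) (1 / (V - V')) (by linarith)), eventually_ge_atTop 2] with p hl1 hE hp2 hr
  rw [Real.rpow_one] at hl1
  have hl : 0 < Real.log p := by linarith
  have hh : 0 < Real.log p ^ a := Real.rpow_pos_of_pos hl a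
  have h1 := hr (Real.log p ^ a) hh (Real.rpow_le_rpow_of_exponent_le hl1 haA)
  rw [set_ico p (by omega)] at h1
  have h2 := R_nat a p hl
  have h3 : cp (p - 1) ⌈Real.log p ^ a⌉₊ ≤ 1 + cp p ⌊Real.log p ^ a⌋₊ := by
    have h4 : ⌈Real.log p ^ a⌉₊ ≤ 1 + ⌊Real.log p ^ a⌋₊ := by
      have := Nat.ceil_le_floor_add_one (Real.log p ^ a)
      omega
    obtain ⟨r, hr'⟩ := Nat.exists_eq_add_of_le h4
    have h5 := cp_add (p - 1) ⌈Real.log p ^ a⌉₊ r
    rw [← hr'] at h5
    have h6 := cp_add (p - 1) 1 ⌊Real.log p ^ a⌋₊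
    rw [Nat.sub_add_cancel (by omega : 1 ≤ p)] at h6
    have h7 := cp_le (p - 1) 1
    omega
  have h3' : (cp (p - 1) ⌈Real.log p ^ a⌉₊ : ℝ) ≤ 1 + cp p ⌊Real.log p ^ a⌋₊ := by
    exact_mod_cast h3
  have h4 : V * Real.log p ^ a ≤ Real.log p + R a p * Real.log p ^ a := by
    rw [h2]
    have := mul_le_mul_of_nonneg_left h3' hl.le
    linarith
  have h5 : Real.log p ≤ (V - V') * Real.log p ^ a := by
    have e : Real.log p ^ a = Real.log p ^ (a - 1) * Real.log p := by
      rw [← Real.rpow_add_one hl.ne']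
      congr 1
      ring
    rw [div_le_iff₀ (by linarith)] at hE
    rw [e]
    nlinarith
  have h6 : V' * Real.log p ^ a ≤ R a p * Real.log p ^ a := by linarith
  exact le_of_mul_le_mul_right h6 hh

theorem R_of_poor (a A V : ℝ) (haA : a ≤ A) :
    ∀ᶠ n : ℕ in atTop, Poor V A n → R a n ≤ V := by
  filter_upwards [ev_nat (ev_pow 1 1 one_pos)] with n hl1 hr
  rw [Real.rpow_one] at hl1
  have hl : 0 < Real.log n := by linarith
  have hh : 0 < Real.log n ^ a := Real.rpow_pos_of_pos hl a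
  have h1 := hr (Real.log n ^ a) hh (Real.rpow_le_rpow_of_exponent_le hl1 haA)
  rw [set_ioc n _ hh.le, ← R_nat a n hl] at h1
  exact le_of_mul_le_mul_right h1 hh

/-- **The question in terms of rich and poor points.** -/
theorem Q1_iff : Q1 ↔ ∀ ε : ℝ, 0 < ε → ∃ A : ℝ, ∀ᶠ p : ℕ in atTop,
    ¬ Rich (1 + ε) A p ∧ ¬ Poor (1 - ε) A p := by
  constructor
  · intro h ε hε
    obtain ⟨a₀, ha₀⟩ := h (ε / 2) (by linarith)
    have h1 := ev_nat (ha₀ (max a₀ 2) (le_max_left _ _))
    refine ⟨max a₀ 2, ?_⟩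
    filter_upwards [h1, R_of_rich (max a₀ 2) (max a₀ 2) (1 + ε) (1 + 3 / 4 * ε)
      (lt_of_lt_of_le (by norm_num) (le_max_right _ _)) le_rfl (by linarith),
      R_of_poor (max a₀ 2) (max a₀ 2) (1 - ε) le_rfl] with n h2 h3 h4
    rw [abs_le] at h2
    refine ⟨fun h5 => ?_, fun h5 => ?_⟩
    · have := h3 h5
      linarith
    · have := h4 h5
      linarith
  · intro h ε hε
    obtain ⟨A, hA⟩ := h (ε / 2) (by linarith)
    obtain ⟨N, hN⟩ := eventually_atTop.1 hA
    refine ⟨max A 1 + 2, fun a ha => ?_⟩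
    have hA1 : 1 ≤ max A 1 := le_max_right _ _
    filter_upwards [rich_of (max A 1) a (1 + ε / 2) (1 + ε) (by linarith) (by linarith)
      (by linarith) (by linarith), poor_of (max A 1) a (1 - ε / 2) (1 - ε) (by linarith)
      (by linarith) (by linarith), eventually_ge_atTop (N + 20 : ℝ)] with x h1 h2 h3
    have hlog : ∀ n : ℕ, x < n + 1 → 1 ≤ Real.log n := by
      intro n hn
      rw [Real.le_log_iff_exp_le (by have : (0:ℝ) ≤ N := Nat.cast_nonneg _; linarith)]
      have := Real.exp_one_lt_d9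
      have h4 : (0:ℝ) ≤ N := Nat.cast_nonneg _
      linarith
    rw [abs_le]
    constructor
    · by_contra hc
      obtain ⟨m, hm1, -, hm3⟩ := h2 (by linarith)
      have h5 : N ≤ m := by
        have : (N : ℝ) < m := by linarith
        exact_mod_cast this.le
      exact (hN m h5).2 (mono_poor (hlog m hm1) (le_max_left _ _) hm3)
    · by_contra hc
      obtain ⟨p, hp1, -, hp3⟩ := h1 (by linarith)
      have h5 : N ≤ p := by
        have : (N : ℝ) < p := by linarith
        exact_mod_cast this.le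
      exact (hN p h5).1 (mono_rich (hlog p (by linarith)) (le_max_left _ _) hp3)

end Pool.Agent.W5h31.UM
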