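import Pool.Agent.W5h31.UM.UM3

/-!
# Rich and poor points in terms of consecutive primes
-/

set_option autoImplicit false

open Finset Filter Topology

namespace Pool.Agent.W5h31.UM

/-- the primes in increasing order, `p 0 = 2` -/
noncomputable def p (n : ℕ) : ℕ := Nat.nth Nat.Prime n

/-- `V (p (n + k) - p n) ≤ k log (p n)` for all `1 ≤ k ≤ (log (p n)) ^ A` -/
def GapRich (V A : ℝ) (n : ℕ) : Prop :=
  ∀ k : ℕ, 1 ≤ k → (k : ℝ) ≤ Real.log (p n) ^ A →
    V * ((p (n + k) : ℝ) - p n) ≤ k * Real.log (p n)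

/-- `k log (p n) ≤ V (p (n + k) - p n)` for all `1 ≤ k ≤ (log (p n)) ^ A` -/
def GapPoor (V A : ℝ) (n : ℕ) : Prop :=
  ∀ k : ℕ, 1 ≤ k → (k : ℝ) ≤ Real.log (p n) ^ A →
    k * Real.log (p n) ≤ V * ((p (n + k) : ℝ) - p n)

theorem p_prime (n : ℕ) : (p n).Prime := Nat.prime_nth_prime n

theorem p_lt {m n : ℕ} (h : m < n) : p m < p n :=
  Nat.nth_strictMono Nat.infinite_setOfPred_prime h

theorem p_le_iff (j y : ℕ) : p j ≤ y ↔ j < Nat.primeCounting y := by
  unfold p Nat.primeCounting Nat.primeCounting'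
  rw [← Nat.lt_succ_iff, Nat.succ_eq_add_one, Nat.lt_nth_iff_count_lt Nat.infinite_setOfPred_prime]

theorem pc_p (n : ℕ) : Nat.primeCounting (p n) = n + 1 := by
  have h1 := (p_le_iff n (p n)).1 le_rfl
  have h2 := mt (p_le_iff (n + 1) (p n)).2 (by have := p_lt (show n < n + 1 by omega); omega)
  omega

theorem pc_p' (n : ℕ) : Nat.primeCounting (p n - 1) = n := by
  have h0 := (p_prime n).two_le
  have h2 := mt (p_le_iff n (p n - 1)).2 (by omega)
  rcases Nat.eq_zero_or_pos n with h | h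
  · omega
  · have h1 := (p_le_iff (n - 1) (p n - 1)).1 (by
      have := p_lt (show n - 1 < n by omega)
      omega)
    omega

theorem le_p (n : ℕ) : n ≤ p n := by
  induction n with
  | zero => exact Nat.zero_le _
  | succ n ih =>
    have := p_lt (show n < n + 1 by omega)
    omega

theorem tends_p : Tendsto p atTop atTop := tendsto_atTop_mono le_p tendsto_id

theorem g1 (V A : ℝ) (n : ℕ) (hV : 1 < V) (hl : 0 < Real.log (p n)) (h : Rich V (A + 1) (p n)) :
    GapRich V A n := by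
  intro k hk hkA
  have hlt := p_lt (show n < n + k by omega)
  have h0 := (p_prime n).two_le
  obtain ⟨d, hd⟩ := Nat.exists_eq_add_of_lt hlt
  have hk' : cp (p n - 1) (d + 1) = k := by
    have h1 := pc_add (p n - 1) (d + 1)
    have h2 := pc_p' (n + k)
    have h3 := pc_p' n
    have h4 : p n - 1 + (d + 1) = p (n + k) - 1 := by omega
    rw [h4] at h1
    omega
  have hd' : (p (n + k) : ℝ) - p n = ((d + 1 : ℕ) : ℝ) := by
    rw [hd]
    push_cast
    ring
  rw [hd']
  by_cases hc : ((d + 1 : ℕ) : ℝ) ≤ Real.log (p n) ^ (A + 1)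
  · have h1 := h ((d + 1 : ℕ) : ℝ) (by positivity) hc
    rw [set_ico _ (by omega), Nat.ceil_natCast, hk'] at h1
    linarith
  · exfalso
    push Not at hc
    have hT : 0 < Real.log (p n) ^ (A + 1) := Real.rpow_pos_of_pos hl _
    have h1 := h _ hT le_rfl
    rw [set_ico _ (by omega)] at h1
    have h2 : ⌈Real.log (p n) ^ (A + 1)⌉₊ ≤ d + 1 := Nat.ceil_le.2 hc.le
    have h3 : cp (p n - 1) ⌈Real.log (p n) ^ (A + 1)⌉₊ ≤ k := by
      obtain ⟨r, hr⟩ := Nat.exists_eq_add_of_le h2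
      have h5 := cp_add (p n - 1) ⌈Real.log (p n) ^ (A + 1)⌉₊ r
      rw [← hr] at h5
      omega
    have h3' : (cp (p n - 1) ⌈Real.log (p n) ^ (A + 1)⌉₊ : ℝ) ≤ Real.log (p n) ^ A :=
      le_trans (by exact_mod_cast h3) hkA
    have h4 := mul_le_mul_of_nonneg_left h3' hl.le
    rw [mul_comm _ (Real.log (p n) ^ A), ← Real.rpow_add_one hl.ne'] at h4
    nlinarith

theorem g2 (V A : ℝ) (n : ℕ) (hV : 0 ≤ V) (hl : V ≤ Real.log (p n)) (h : GapRich V A n) :
    Rich V A (p n) := by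
  intro t ht htA
  have h0 := (p_prime n).two_le
  have hl0 : 0 < Real.log (p n) := Real.log_pos (by exact_mod_cast h0)
  rw [set_ico _ (by omega)]
  obtain ⟨k, hk⟩ : ∃ k, k = cp (p n - 1) ⌈t⌉₊ := ⟨_, rfl⟩
  rw [← hk]
  have hc1 : 1 ≤ ⌈t⌉₊ := Nat.ceil_pos.2 ht
  have h1 := pc_add (p n - 1) ⌈t⌉₊
  rw [← hk, pc_p'] at h1
  have h2 := (p_le_iff (n + k) (p n - 1 + ⌈t⌉₊)).not.2 (by omega)
  have hk1 : 1 ≤ k := by
    have h3 := (p_le_iff n (p n - 1 + ⌈t⌉₊)).1 (by omega)
    omega
  have h3 : p n + ⌈t⌉₊ ≤ p (n + k) := by omega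
  have h3' : (p n : ℝ) + ⌈t⌉₊ ≤ p (n + k) := by exact_mod_cast h3
  have h4 := Nat.le_ceil t
  by_cases hc : (k : ℝ) ≤ Real.log (p n) ^ A
  · have h5 := h k hk1 hc
    have h6 : V * t ≤ V * ((p (n + k) : ℝ) - p n) := mul_le_mul_of_nonneg_left (by linarith) hV
    linarith
  · push Not at hc
    have h5 : V * t ≤ Real.log (p n) * t := mul_le_mul_of_nonneg_right hl ht.le
    have h6 : Real.log (p n) * t ≤ Real.log (p n) * k :=
      mul_le_mul_of_nonneg_left (by linarith) hl0.le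
    linarith

theorem g3 (V A : ℝ) (m : ℕ) (hA : 0 ≤ A) (hm : 2 ≤ m) (hl : 1 ≤ V * Real.log m)
    (hV : 0 < V) (h : Poor V (A + 2) m) : GapPoor V A (Nat.primeCounting m - 1) := by
  intro k hk hkA
  obtain ⟨n, hn⟩ : ∃ n, n = Nat.primeCounting m - 1 := ⟨_, rfl⟩
  rw [← hn] at hkA ⊢
  have hπ : 1 ≤ Nat.primeCounting m := by
    have := (p_le_iff 0 m).1 (by
      have : p 0 = 2 := Nat.nth_prime_zero_eq_two
      omega)
    omega
  have h1 : p n ≤ m := (p_le_iff n m).2 (by omega)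
  have h2 : ¬ p (n + 1) ≤ m := (p_le_iff (n + 1) m).not.2 (by omega)
  have h3 : p (n + 1) ≤ p (n + k) := by
    rcases Nat.eq_or_lt_of_le hk with h | h
    · rw [← h]
    · exact (p_lt (by omega)).le
  have h0 := (p_prime n).two_le
  obtain ⟨e, he⟩ := Nat.exists_eq_add_of_lt (show m < p (n + k) by omega)
  have hke : cp m (e + 1) = k := by
    have h4 := pc_add m (e + 1)
    rw [← add_assoc, ← he, pc_p] at h4
    omega
  have hlm : 0 < Real.log m := Real.log_pos (by exact_mod_cast hm)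
  have hlP0 : 0 < Real.log (p n) := Real.log_pos (by exact_mod_cast h0)
  have hlP : Real.log (p n) ≤ Real.log m :=
    Real.log_le_log (by positivity) (by exact_mod_cast h1)
  have h1' : (p n : ℝ) ≤ m := by exact_mod_cast h1
  have hd : ((e + 1 : ℕ) : ℝ) ≤ (p (n + k) : ℝ) - p n := by
    rw [he]
    push_cast
    linarith
  have hVd : V * ((e + 1 : ℕ) : ℝ) ≤ V * ((p (n + k) : ℝ) - p n) :=
    mul_le_mul_of_nonneg_left hd hV.le
  by_cases hc : ((e + 1 : ℕ) : ℝ) ≤ Real.log m ^ (A + 2)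
  · have h5 := h ((e + 1 : ℕ) : ℝ) (by positivity) hc
    rw [set_ioc _ _ (by positivity), Nat.floor_natCast, hke] at h5
    have h6 : (k : ℝ) * Real.log (p n) ≤ k * Real.log m :=
      mul_le_mul_of_nonneg_left hlP (Nat.cast_nonneg _)
    linarith
  · push Not at hc
    have h5 : (k : ℝ) * Real.log (p n) ≤ Real.log m ^ (A + 1) := by
      calc (k : ℝ) * Real.log (p n) ≤ Real.log (p n) ^ A * Real.log (p n) :=
            mul_le_mul_of_nonneg_right hkA hlP0.le
        _ = Real.log (p n) ^ (A + 1) := (Real.rpow_add_one hlP0.ne' A).symm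
        _ ≤ Real.log m ^ (A + 1) := Real.rpow_le_rpow hlP0.le hlP (by linarith)
    have h6 : Real.log m ^ (A + 2) = Real.log m ^ (A + 1) * Real.log m := by
      rw [← Real.rpow_add_one hlm.ne']
      congr 1
      ring
    have h7 : 0 < Real.log m ^ (A + 1) := Real.rpow_pos_of_pos hlm _
    have h8 : V * Real.log m ^ (A + 2) ≤ V * ((e + 1 : ℕ) : ℝ) :=
      mul_le_mul_of_nonneg_left hc.le hV.le
    rw [h6] at h8
    nlinarith

theorem g4 (V A : ℝ) (n : ℕ) (hA : 0 ≤ A) (hl : 1 ≤ Real.log (p n)) (h : GapPoor V A n) :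
    Poor V A (p n) := by
  intro t ht htA
  rw [set_ioc _ t ht.le]
  have hl0 : 0 < Real.log (p n) := by linarith
  have hV : 0 ≤ V := by
    have h1 := h 1 le_rfl (by
      rw [Nat.cast_one]
      exact Real.one_le_rpow hl hA)
    have h2 : (p n : ℝ) < p (n + 1) := by exact_mod_cast p_lt (show n < n + 1 by omega)
    rw [Nat.cast_one, one_mul] at h1
    by_contra hc
    push Not at hc
    nlinarith
  obtain ⟨k, hk⟩ : ∃ k, k = cp (p n) ⌊t⌋₊ := ⟨_, rfl⟩
  rw [← hk]
  rcases Nat.eq_zero_or_pos k with h0 | h0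
  · rw [h0, Nat.cast_zero, mul_zero]
    positivity
  · have h1 := pc_add (p n) ⌊t⌋₊
    rw [← hk, pc_p] at h1
    have h2 := (p_le_iff (n + k) (p n + ⌊t⌋₊)).2 (by omega)
    have h2' : (p (n + k) : ℝ) ≤ p n + ⌊t⌋₊ := by exact_mod_cast h2
    have h3 := Nat.floor_le ht.le
    have h4 : (k : ℝ) ≤ ⌊t⌋₊ := by
      rw [hk]
      exact_mod_cast cp_le _ _
    have h5 := h k h0 (by linarith)
    have h6 : V * ((p (n + k) : ℝ) - p n) ≤ V * t := mul_le_mul_of_nonneg_left (by linarith) hV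
    linarith

/-- **The question in terms of consecutive primes.** -/
theorem Q1_gaps : Q1 ↔ ∀ ε : ℝ, 0 < ε → ∃ A : ℝ, ∀ᶠ n : ℕ in atTop,
    ¬ GapRich (1 + ε) A n ∧ ¬ GapPoor (1 - ε) A n := by
  have hlogp : ∀ K : ℝ, ∀ᶠ n : ℕ in atTop, K ≤ Real.log (p n) := by
    intro K
    have h1 := (Real.tendsto_log_atTop.comp
      (tendsto_natCast_atTop_atTop.comp tends_p)).eventually (eventually_ge_atTop K)
    exact h1
  rw [Q1_iff]
  constructor
  · intro h ε hε
    obtain ⟨A, hA⟩ := h ε hε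
    refine ⟨max A 0, ?_⟩
    filter_upwards [tends_p.eventually hA, hlogp (1 + ε)] with n h1 h2
    refine ⟨fun h3 => h1.1 ?_, fun h3 => h1.2 ?_⟩
    · exact mono_rich (by linarith) (le_max_left _ _) (g2 _ _ n (by linarith) h2 h3)
    · exact mono_poor (by linarith) (le_max_left _ _)
        (g4 _ _ n (le_max_right _ _) (by linarith) h3)
  · intro h ε hε
    obtain ⟨ε', hε'⟩ : ∃ ε' : ℝ, ε' = min ε (1 / 2) := ⟨_, rfl⟩
    have he0 : 0 < ε' := by rw [hε']; exact lt_min hε (by norm_num)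
    have he1 : ε' ≤ ε := by rw [hε']; exact min_le_left _ _
    have he2 : ε' ≤ 1 / 2 := by rw [hε']; exact min_le_right _ _
    obtain ⟨A, hA⟩ := h ε' he0
    obtain ⟨N, hN⟩ := eventually_atTop.1 (hA.and (hlogp 1))
    have hA0 : 0 ≤ max A 0 := le_max_right _ _
    refine ⟨max A 0 + 2, ?_⟩
    filter_upwards [eventually_ge_atTop (p (N + 2)), eventually_ge_atTop 2,
      ev_nat (ev_pow 1 2 one_pos)] with m hm hm2 hlm
    rw [Real.rpow_one] at hlm
    have hm1 := (p_le_iff (N + 2) m).1 hm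
    refine ⟨fun h3 => ?_, fun h3 => ?_⟩
    · -- `m` is prime
      have hprime : m.Prime := by
        have h4 := h3 1 one_pos (Real.one_le_rpow (by linarith) (by linarith))
        rw [set_ico m (by omega), Nat.ceil_one] at h4
        have h5 : cp (m - 1) 1 ≠ 0 := by
          intro h6
          rw [h6, Nat.cast_zero, mul_zero, mul_one] at h4
          linarith
        unfold cp at h5
        obtain ⟨q, hq⟩ := card_ne_zero.1 h5
        rw [mem_filter, mem_Ioc] at hq
        have : q = m := by omega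
        rw [← this]
        exact hq.2
      obtain ⟨n, hn⟩ : ∃ n, p n = m := ⟨Nat.count Nat.Prime m, Nat.nth_count hprime⟩
      have hnN : N ≤ n := by
        by_contra hc
        have := p_lt (show n < N + 2 by omega)
        omega
      have h4 : Rich (1 + ε') (max A 0 + 1) (p n) := by
        rw [hn]
        have h5 := mono_rich (by linarith) (show max A 0 + 1 ≤ max A 0 + 2 by linarith) h3
        intro t ht htA
        refine le_trans ?_ (h5 t ht htA)
        nlinarith
      have h5 := g1 (1 + ε') (max A 0) n (by linarith) (by rw [hn]; linarith) h4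
      refine (hN n hnN).1.1 fun k hk hkA => h5 k hk (hkA.trans ?_)
      exact Real.rpow_le_rpow_of_exponent_le (by rw [hn]; linarith) (le_max_left _ _)
    · have h4 : Poor (1 - ε') (max A 0 + 2) m := by
        intro t ht htA
        refine (h3 t ht htA).trans ?_
        nlinarith
      have h5 := g3 (1 - ε') (max A 0) m hA0 hm2 (by nlinarith) (by linarith) h4
      obtain ⟨h6, h7⟩ := hN (Nat.primeCounting m - 1) (by omega)
      refine h6.2 fun k hk hkA => h5 k hk (hkA.trans ?_)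
      exact Real.rpow_le_rpow_of_exponent_le h7 (le_max_left _ _)

end Pool.Agent.W5h31.UM
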