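import Pool.Agent.W5h31.UM.UM3
import Pool.Agent.W5h22.JM.K

/-!
# Many points which are rich or poor at all scales
-/

set_option autoImplicit false

open Finset Filter Topology

namespace Pool.Agent.W5h31.UM

theorem ev_exp (b ε : ℝ) (hb : 0 ≤ b) (hε : 0 < ε) : ∀ᶠ X : ℝ in atTop,
    Real.log (3 * X) ^ b + 3 ≤ Real.exp (Real.log X ^ ε - Real.log X ^ (ε / 2)) := by
  have hw : Tendsto (fun X : ℝ => Real.log X ^ ε) atTop atTop :=
    (tendsto_rpow_atTop hε).comp Real.tendsto_log_atTop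
  have h1 : ∀ᶠ w : ℝ in atTop, 2 ^ b * w ^ (b / ε) + 3 ≤ Real.exp (w / 2) := by
    have h2 := isLittleO_rpow_exp_pos_mul_atTop (b / ε) (by norm_num : (0:ℝ) < 1 / 2)
    have h3 := h2.bound (show (0:ℝ) < 1 / (2 * 2 ^ b) by positivity)
    filter_upwards [h3, eventually_ge_atTop (10:ℝ)] with w h4 h5
    rw [Real.norm_eq_abs, Real.norm_eq_abs, abs_of_nonneg (by positivity),
      abs_of_nonneg (by positivity)] at h4
    have e : (1:ℝ) / 2 * w = w / 2 := by ring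
    rw [e] at h4
    have h6 : 2 ^ b * w ^ (b / ε) ≤ Real.exp (w / 2) / 2 := by
      have h7 := mul_le_mul_of_nonneg_left h4 (show (0:ℝ) ≤ 2 ^ b by positivity)
      refine h7.trans (le_of_eq ?_)
      field_simp
    have h8 := Real.add_one_le_exp (w / 2)
    linarith
  filter_upwards [hw.eventually h1, eventually_ge_atTop (3:ℝ), ev_pow (ε / 2) 2 (by linarith)]
    with X h2 h3 h4
  have hl : 0 < Real.log X := Real.log_pos (by linarith)
  have hl3 : 0 ≤ Real.log (3 * X) := Real.log_nonneg (by linarith)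
  have h5 : Real.log (3 * X) ≤ 2 * Real.log X := by
    rw [Real.log_mul (by norm_num) (by linarith)]
    have := Real.log_le_log (by norm_num) h3
    linarith
  have h6 : Real.log (3 * X) ^ b ≤ 2 ^ b * (Real.log X ^ ε) ^ (b / ε) := by
    refine (Real.rpow_le_rpow hl3 h5 hb).trans (le_of_eq ?_)
    rw [Real.mul_rpow (by norm_num) hl.le, ← Real.rpow_mul hl.le]
    congr 2
    field_simp
  have h7 : Real.log X ^ ε = Real.log X ^ (ε / 2) * Real.log X ^ (ε / 2) := by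
    rw [← Real.rpow_add hl]
    congr 1
    ring
  have h8 : Real.log X ^ ε / 2 ≤ Real.log X ^ ε - Real.log X ^ (ε / 2) := by
    rw [h7]
    nlinarith
  have h9 := Real.exp_le_exp.2 h8
  linarith

theorem ev_small3 (b : ℝ) : ∀ᶠ x : ℝ in atTop, Real.log x ^ b + 2 ≤ x / 3 := by
  have h1 := isLittleO_log_rpow_rpow_atTop b (one_pos : (0:ℝ) < 1)
  have h2 := h1.bound (by norm_num : (0:ℝ) < 1 / 6)
  filter_upwards [h2, eventually_ge_atTop (12:ℝ)] with x hx h4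
  rw [Real.rpow_one] at hx
  have h5 : Real.log x ^ b ≤ ‖Real.log x ^ b‖ := le_abs_self _
  rw [Real.norm_eq_abs x, abs_of_nonneg (by linarith)] at hx
  linarith

/-- **Counting.** -/
theorem count_of (b ε : ℝ) (hb : 0 ≤ b) (hε : 0 < ε) (S P : ℕ → Prop)
    (hS : ∀ᶠ X : ℝ in atTop, X * Real.exp (-(Real.log X) ^ (ε / 2)) ≤
      ({n : ℕ | X < n ∧ (n : ℝ) < 3 * X ∧ S n}.ncard : ℝ))
    (hSP : ∀ᶠ n : ℕ in atTop, S n →
      ∃ q : ℕ, n ≤ q ∧ (q : ℝ) ≤ n + Real.log n ^ b + 2 ∧ P q) :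
    ∀ᶠ X : ℝ in atTop, X * Real.exp (-(Real.log X) ^ ε) ≤
      ({q : ℕ | X < q ∧ (q : ℝ) < 4 * X ∧ P q}.ncard : ℝ) := by
  classical
  obtain ⟨N, hN⟩ := eventually_atTop.1 hSP
  have h3X : Tendsto (fun X : ℝ => 3 * X) atTop atTop := tendsto_id.const_mul_atTop (by norm_num)
  filter_upwards [hS, ev_exp b ε hb hε, eventually_ge_atTop (N + 3 : ℝ),
    h3X.eventually (ev_small3 b)] with X h1 h2 h3 h4
  have hN0 : (0:ℝ) ≤ N := Nat.cast_nonneg _
  have hX0 : 0 < X := by linarith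
  have hfin : ∀ (K : ℝ) (Q : ℕ → Prop), {n : ℕ | X < n ∧ (n : ℝ) < K ∧ Q n}.Finite := by
    intro K Q
    refine (Set.finite_Iic ⌊K⌋₊).subset fun n hn => ?_
    exact Nat.le_floor hn.2.1.le
  obtain ⟨s, hs⟩ : ∃ s : Finset ℕ, (s : Set ℕ) = {n : ℕ | X < n ∧ (n : ℝ) < 3 * X ∧ S n} :=
    ⟨(hfin (3 * X) S).toFinset, by simp⟩
  obtain ⟨t, ht⟩ : ∃ t : Finset ℕ, (t : Set ℕ) = {n : ℕ | X < n ∧ (n : ℝ) < 4 * X ∧ P n} :=
    ⟨(hfin (4 * X) P).toFinset, by simp⟩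
  rw [← hs, Set.ncard_coe_finset] at h1
  rw [← ht, Set.ncard_coe_finset]
  have hms : ∀ n, n ∈ s ↔ X < n ∧ (n : ℝ) < 3 * X ∧ S n := by
    intro n
    rw [← mem_coe, hs]
    rfl
  have hmt : ∀ n, n ∈ t ↔ X < n ∧ (n : ℝ) < 4 * X ∧ P n := by
    intro n
    rw [← mem_coe, ht]
    rfl
  obtain ⟨M, hM⟩ : ∃ M : ℝ, M = Real.log (3 * X) ^ b + 2 := ⟨_, rfl⟩
  have hl3 : 0 ≤ Real.log (3 * X) := Real.log_nonneg (by linarith)
  have hM0 : 0 ≤ M := by
    rw [hM]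
    have := Real.rpow_nonneg hl3 b
    linarith
  have hch : ∀ n : ℕ, ∃ q : ℕ, n ∈ s → n ≤ q ∧ (q : ℝ) ≤ n + M ∧ P q := by
    intro n
    by_cases hn : n ∈ s
    · obtain ⟨k1, k2, k3⟩ := (hms n).1 hn
      have hnN : N ≤ n := by
        have : (N : ℝ) < n := by linarith
        exact_mod_cast this.le
      obtain ⟨q, q1, q2, q3⟩ := hN n hnN k3
      refine ⟨q, fun _ => ⟨q1, q2.trans ?_, q3⟩⟩
      have h5 : Real.log n ^ b ≤ Real.log (3 * X) ^ b :=
        Real.rpow_le_rpow (Real.log_nonneg (by linarith)) (Real.log_le_log (by linarith) k2.le) hb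
      rw [hM]
      linarith
    · exact ⟨0, fun h => absurd h hn⟩
  choose f hf using hch
  have hcard := card_le_mul_card_image_of_maps_to (s := s) (t := t) (f := f) (fun n hn => by
    obtain ⟨k1, k2, k3⟩ := (hms n).1 hn
    obtain ⟨q1, q2, q3⟩ := hf n hn
    have q1' : (n : ℝ) ≤ f n := by exact_mod_cast q1
    refine (hmt _).2 ⟨by linarith, ?_, q3⟩
    rw [← hM] at h4
    linarith) (⌊M⌋₊ + 1) (fun q _ => by
    refine (card_le_card (t := Icc (q - ⌊M⌋₊) q) fun n hn => ?_).trans ?_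
    · rw [mem_filter] at hn
      obtain ⟨q1, q2, q3⟩ := hf n hn.1
      rw [hn.2] at q1 q2
      rw [mem_Icc]
      refine ⟨?_, q1⟩
      have h5 : ((q - n : ℕ) : ℝ) ≤ M := by
        rw [Nat.cast_sub q1]
        linarith
      have := Nat.le_floor h5
      omega
    · rw [Nat.card_Icc]
      omega)
  have hcard' : (s.card : ℝ) ≤ (M + 1) * t.card := by
    have h5 : (s.card : ℝ) ≤ ((⌊M⌋₊ + 1 : ℕ) : ℝ) * t.card := by exact_mod_cast hcard
    refine h5.trans (mul_le_mul_of_nonneg_right ?_ (Nat.cast_nonneg _))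
    push_cast
    have := Nat.floor_le hM0
    linarith
  have h5 : M + 1 ≤ Real.exp (Real.log X ^ ε - Real.log X ^ (ε / 2)) := by
    rw [hM]
    linarith
  have h6 : X * Real.exp (-(Real.log X) ^ (ε / 2)) ≤
      Real.exp (Real.log X ^ ε - Real.log X ^ (ε / 2)) * t.card :=
    h1.trans (hcard'.trans (mul_le_mul_of_nonneg_right h5 (Nat.cast_nonneg _)))
  rw [Real.exp_sub, ← mul_div_right_comm, le_div_iff₀ (Real.exp_pos _), mul_assoc,
    ← Real.exp_add, neg_add_cancel, Real.exp_zero, mul_one] at h6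
  rw [Real.exp_neg, ← div_eq_mul_inv, div_le_iff₀ (Real.exp_pos _)]
  linarith

open MeasureTheory in
theorem many_up (b ε : ℝ) (hb : 1 < b) (hε : 0 < ε) : ∃ δ : ℝ, 0 < δ ∧
    ∀ᶠ X : ℝ in atTop, X * Real.exp (-(Real.log X) ^ ε) ≤
      ({n : ℕ | X < n ∧ (n : ℝ) < 3 * X ∧ 1 + δ ≤ R b n}.ncard : ℝ) := by
  obtain ⟨δ, hδ, h⟩ := Pool.Agent.W5h22.JM.meas_main b b hb
    (Measure.dirac b) (0 : Measure ℝ) (by simp) (by simp)
    (fun h => by
      have h1 := congrArg (fun m : Measure ℝ => m Set.univ) h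
      simp at h1) ε hε
  refine ⟨δ, hδ, ?_⟩
  filter_upwards [h] with X hX
  refine hX.trans (le_of_eq ?_)
  rw [← Set.ncard_coe_finset]
  congr 2
  ext n
  unfold Pool.Agent.W5h22.JM.big
  rw [Finset.mem_coe, Finset.mem_filter, Finset.mem_Icc, Set.mem_ofPred_eq]
  simp only [integral_dirac, integral_zero_measure, sub_zero, measureReal_zero,
    Pi.zero_apply, probReal_univ]
  constructor
  · exact fun h1 => h1.2
  · intro h1
    refine ⟨⟨?_, Nat.le_floor h1.2.1.le⟩, h1⟩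
    by_contra hc
    have : n = 0 := by omega
    subst this
    have h2 := h1.1
    have h3 := h1.2.1
    simp only [Nat.cast_zero] at h2 h3
    linarith

open MeasureTheory in
theorem many_down (b ε : ℝ) (hb : 1 < b) (hε : 0 < ε) : ∃ δ : ℝ, 0 < δ ∧
    ∀ᶠ X : ℝ in atTop, X * Real.exp (-(Real.log X) ^ ε) ≤
      ({n : ℕ | X < n ∧ (n : ℝ) < 3 * X ∧ R b n ≤ 1 - δ}.ncard : ℝ) := by
  obtain ⟨δ, hδ, h⟩ := Pool.Agent.W5h22.JM.meas_main b b hb
    (0 : Measure ℝ) (Measure.dirac b) (by simp) (by simp)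
    (fun h => by
      have h1 := congrArg (fun m : Measure ℝ => m Set.univ) h
      simp at h1) ε hε
  refine ⟨δ, hδ, ?_⟩
  filter_upwards [h] with X hX
  refine hX.trans (le_of_eq ?_)
  rw [← Set.ncard_coe_finset]
  congr 2
  ext n
  unfold Pool.Agent.W5h22.JM.big
  rw [Finset.mem_coe, Finset.mem_filter, Finset.mem_Icc, Set.mem_ofPred_eq]
  simp only [integral_dirac, integral_zero_measure, zero_sub, measureReal_zero,
    Pi.zero_apply, probReal_univ]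
  have e : (-1 + δ ≤ -Pool.Agent.W5h22.JM.ratio b n) ↔ R b n ≤ 1 - δ := by
    change (-1 + δ ≤ -R b n) ↔ _
    constructor <;> intro h <;> linarith
  rw [e]
  constructor
  · exact fun h1 => h1.2
  · intro h1
    refine ⟨⟨?_, Nat.le_floor h1.2.1.le⟩, h1⟩
    by_contra hc
    have : n = 0 := by omega
    subst this
    have h2 := h1.1
    have h3 := h1.2.1
    simp only [Nat.cast_zero] at h2 h3
    linarith

/-- **Uniform oscillation, upper part.** -/
theorem many_rich (A ε : ℝ) (hA : 0 < A) (hε : 0 < ε) : ∃ δ : ℝ, 0 < δ ∧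
    ∀ᶠ X : ℝ in atTop, X * Real.exp (-(Real.log X) ^ ε) ≤
      ({q : ℕ | X < q ∧ (q : ℝ) < 4 * X ∧ Rich (1 + δ) A q}.ncard : ℝ) := by
  obtain ⟨δ, hδ, h⟩ := many_up (A + 1) (ε / 2) (by linarith) (by linarith)
  refine ⟨δ / 2, by linarith, ?_⟩
  refine count_of (A + 1) ε (by linarith) hε (fun n => 1 + δ ≤ R (A + 1) n) _ h ?_
  filter_upwards [ev_nat (rich_of A (A + 1) (1 + δ / 2) (1 + δ) hA (by linarith) (by linarith)
    (by linarith))] with n hn hS
  obtain ⟨q, h1, h2, h3⟩ := hn hS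
  exact ⟨q, by exact_mod_cast h1.le, h2, h3⟩

/-- **Uniform oscillation, lower part.** -/
theorem many_poor (A ε : ℝ) (hA : 0 < A) (hε : 0 < ε) : ∃ δ : ℝ, 0 < δ ∧
    ∀ᶠ X : ℝ in atTop, X * Real.exp (-(Real.log X) ^ ε) ≤
      ({q : ℕ | X < q ∧ (q : ℝ) < 4 * X ∧ Poor (1 - δ) A q}.ncard : ℝ) := by
  obtain ⟨δ, hδ, h⟩ := many_down (A + 1) (ε / 2) (by linarith) (by linarith)
  refine ⟨δ / 2, by linarith, ?_⟩
  refine count_of (A + 1) ε (by linarith) hε (fun n => R (A + 1) n ≤ 1 - δ) _ h ?_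
  filter_upwards [ev_nat (poor_of A (A + 1) (1 - δ / 2) (1 - δ) hA (by linarith)
    (by linarith)), eventually_ge_atTop 1] with n hn hn1 hS
  obtain ⟨q, h1, h2, h3⟩ := hn hS
  refine ⟨q, ?_, h2, h3⟩
  have : n < q + 1 := by exact_mod_cast h1
  omega

theorem freq_of_many (P : ℕ → Prop) (K ε : ℝ) (hP : ∀ᶠ X : ℝ in atTop,
    X * Real.exp (-(Real.log X) ^ ε) ≤ ({q : ℕ | X < q ∧ (q : ℝ) < K * X ∧ P q}.ncard : ℝ)) :
    ∃ᶠ q : ℕ in atTop, P q := by
  rw [frequently_atTop]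
  intro N
  obtain ⟨X, hX1, hX2⟩ := (hP.and (eventually_ge_atTop (N + 1 : ℝ))).exists
  have hN : (0:ℝ) ≤ N := Nat.cast_nonneg _
  have h3 : (0:ℝ) < ({q : ℕ | X < q ∧ (q : ℝ) < K * X ∧ P q}.ncard : ℝ) := by
    refine lt_of_lt_of_le ?_ hX1
    have := Real.exp_pos (-(Real.log X) ^ ε)
    have : 0 < X := by linarith
    positivity
  have h4 : {q : ℕ | X < q ∧ (q : ℝ) < K * X ∧ P q}.ncard ≠ 0 := by
    intro h0
    rw [h0] at h3
    simp at h3
  obtain ⟨q, hq⟩ := Set.nonempty_of_ncard_ne_zero h4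
  refine ⟨q, ?_, hq.2.2⟩
  have : (N : ℝ) < q := by linarith [hq.1]
  exact_mod_cast this.le

end Pool.Agent.W5h31.UM
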