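import Pool.Agent.W5h31.UM.UM5

/-!
# All functions `h` of at most polylogarithmic growth
-/

set_option autoImplicit false

open Finset Filter Topology

namespace Pool.Agent.W5h31.UM

/-- `R_h(x) = (log x / h(x)) (π(x + h(x)) - π(x))` -/
noncomputable def Rh (h : ℝ → ℝ) (x : ℝ) : ℝ :=
  Real.log x / h x * ((Nat.primeCounting ⌊x + h x⌋₊ : ℝ) - Nat.primeCounting ⌊x⌋₊)

/-- `U(h) = limsup R_h(x)` -/
noncomputable def U (h : ℝ → ℝ) : EReal := limsup (fun x : ℝ => ((Rh h x : ℝ) : EReal)) atTop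

/-- `L(h) = liminf R_h(x)` -/
noncomputable def L (h : ℝ → ℝ) : EReal := liminf (fun x : ℝ => ((Rh h x : ℝ) : EReal)) atTop

/-- the function `(log x) ^ a` -/
noncomputable def pw (a : ℝ) : ℝ → ℝ := fun x => Real.log x ^ a

/-- `h` is bounded from below by a positive constant -/
def Pos (h : ℝ → ℝ) : Prop := ∃ c : ℝ, 0 < c ∧ ∀ᶠ x : ℝ in atTop, c ≤ h x

/-- `h = o(H)`, uniformly on the intervals `[x - 1, x + H(x) + 2]` -/
def Below (h H : ℝ → ℝ) : Prop :=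
  ∀ ε : ℝ, 0 < ε → ∀ᶠ x : ℝ in atTop, 0 ≤ H x ∧
    ∀ y : ℝ, x - 1 ≤ y → y ≤ x + H x + 2 → h y ≤ ε * H x

theorem Rh_pw (a x : ℝ) : Rh (pw a) x = R a x := rfl

theorem ev_log_ratio (θ : ℝ) (hθ : θ < 1) :
    ∀ᶠ x : ℝ in atTop, θ * Real.log (x + 1) ≤ Real.log x := by
  filter_upwards [eventually_ge_atTop (3:ℝ), ev_pow 1 (1 / (1 - θ)) one_pos] with x hx hl
  rw [Real.rpow_one, div_le_iff₀ (by linarith)] at hl
  have h1 : Real.log (x + 1) ≤ Real.log x + 1 := by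
    have h2 : Real.log (x + 1) = Real.log x + Real.log (1 + 1 / x) := by
      rw [← Real.log_mul (by linarith) (by positivity)]
      congr 1
      field_simp
    have h3 : Real.log (1 + 1 / x) ≤ 1 / x := by
      have := Real.log_le_sub_one_of_pos (show 0 < 1 + 1 / x by positivity)
      linarith
    have h4 : 1 / x ≤ 1 := by
      rw [div_le_one (by linarith)]
      linarith
    linarith
  have h5 : 0 < Real.log x := Real.log_pos (by linarith)
  by_cases h0 : 0 ≤ θ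
  · nlinarith
  · push Not at h0
    have : 0 < Real.log (x + 1) := Real.log_pos (by linarith)
    nlinarith

/-- from a rich prime `p` to the real number `p - η` -/
theorem point_up (c V V₁ : ℝ) (hc : 0 < c) (hV₁ : 0 < V₁) (hVV : V₁ < V) :
    ∃ η : ℝ, 0 < η ∧ η ≤ 1 / 2 ∧ ∀ᶠ p : ℕ in atTop, ∀ T : ℝ, RichT V T p →
      ∀ t : ℝ, c ≤ t → t ≤ T → V₁ * t ≤ Real.log (p - η) *
        ((Nat.primeCounting ⌊p - η + t⌋₊ : ℝ) - Nat.primeCounting ⌊p - η⌋₊) := by
  have hV : 0 < V := by linarith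
  obtain ⟨θ, hθ⟩ : ∃ θ : ℝ, θ = (1 + V₁ / V) / 2 := ⟨_, rfl⟩
  have hr : V₁ / V < 1 := by rw [div_lt_one hV]; exact hVV
  have hr0 : 0 < V₁ / V := by positivity
  have hθ1 : θ < 1 := by linarith
  have hθ0 : 0 < θ := by linarith
  have hθ2 : V₁ ≤ V * (θ * θ) := by
    have h1 : V₁ / V ≤ θ * θ := by
      rw [hθ]
      nlinarith [sq_nonneg (1 - V₁ / V)]
    rw [div_le_iff₀ hV] at h1
    linarith
  obtain ⟨η, hη⟩ : ∃ η : ℝ, η = min (c * (1 - θ)) (1 / 2) := ⟨_, rfl⟩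
  have hη0 : 0 < η := by
    rw [hη]
    exact lt_min (mul_pos hc (by linarith)) (by norm_num)
  have hη1 : η ≤ c * (1 - θ) := by rw [hη]; exact min_le_left _ _
  have hη2 : η ≤ 1 / 2 := by rw [hη]; exact min_le_right _ _
  refine ⟨η, hη0, hη2, ?_⟩
  obtain ⟨x₀, hx₀⟩ := eventually_atTop.1 (ev_log_ratio θ hθ1)
  filter_upwards [eventually_ge_atTop (⌈x₀⌉₊ + 5)] with p hp T hr t' hct htT
  have hp' : x₀ + 5 ≤ p := by
    have h1 := Nat.le_ceil x₀
    have h2 : ((⌈x₀⌉₊ + 5 : ℕ) : ℝ) ≤ p := by exact_mod_cast hp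
    push_cast at h2
    linarith
  have hp5 : (5:ℝ) ≤ p := by
    have : 5 ≤ p := by omega
    exact_mod_cast this
  obtain ⟨x, hx⟩ : ∃ x : ℝ, x = p - η := ⟨_, rfl⟩
  rw [← hx]
  have k3 := hx₀ x (by linarith)
  have hlx : 0 < Real.log x := Real.log_pos (by linarith)
  have hlp : 0 < Real.log p := Real.log_pos (by linarith)
  have hh0 : 0 < t' := by linarith
  obtain ⟨t, ht⟩ : ∃ t : ℝ, t = t' - η := ⟨_, rfl⟩
  have ht0 : 0 < t := by
    have : c * (1 - θ) < c := by nlinarith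
    linarith
  have h1 := hr t ht0 (by linarith)
  have hp1 : 1 ≤ p := by
    have : (1:ℝ) ≤ p := by linarith
    exact_mod_cast this
  rw [set_ico p hp1] at h1
  have hfx : ⌊x⌋₊ = p - 1 := by
    rw [Nat.floor_eq_iff (by linarith)]
    rw [Nat.cast_sub hp1]
    push_cast
    constructor <;> linarith
  have hfx2 : ⌊x + t'⌋₊ = p - 1 + (⌊t⌋₊ + 1) := by
    have e : x + t' = t + p := by linarith
    rw [e, Nat.floor_add_natCast ht0.le]
    omega
  have h2 : cp (p - 1) ⌈t⌉₊ ≤ cp (p - 1) (⌊t⌋₊ + 1) := cp_mono _ (Nat.ceil_le_floor_add_one t)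
  have h2' : (cp (p - 1) ⌈t⌉₊ : ℝ) ≤ cp (p - 1) (⌊t⌋₊ + 1) := by exact_mod_cast h2
  rw [hfx, hfx2, pc_add]
  push_cast
  rw [add_sub_cancel_left]
  -- `V₁ h ≤ V θ² h ≤ θ V t ≤ θ log p · count ≤ log x · count`
  have e1 : θ * t' ≤ t := by
    have : c * (1 - θ) ≤ t' * (1 - θ) := mul_le_mul_of_nonneg_right hct (by linarith)
    linarith
  have e2 : θ * Real.log p ≤ Real.log x := by
    refine le_trans (mul_le_mul_of_nonneg_left ?_ hθ0.le) k3
    exact Real.log_le_log (by linarith) (by linarith)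
  have e3 : V₁ * t' ≤ V * (θ * θ) * t' := mul_le_mul_of_nonneg_right hθ2 hh0.le
  have e4 : V * θ * (θ * t') ≤ V * θ * t := mul_le_mul_of_nonneg_left e1 (by positivity)
  have e5 : θ * (V * t) ≤ θ * (Real.log p * (cp (p - 1) (⌊t⌋₊ + 1) : ℝ)) := by
    apply mul_le_mul_of_nonneg_left _ hθ0.le
    exact h1.trans (mul_le_mul_of_nonneg_left h2' hlp.le)
  have e6 : θ * Real.log p * (cp (p - 1) (⌊t⌋₊ + 1) : ℝ) ≤
      Real.log x * (cp (p - 1) (⌊t⌋₊ + 1) : ℝ) :=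
    mul_le_mul_of_nonneg_right e2 (Nat.cast_nonneg _)
  nlinarith

theorem Rh_le_iff (h : ℝ → ℝ) (x V : ℝ) (hh : 0 < h x) : V ≤ Rh h x ↔ V * h x ≤
    Real.log x * ((Nat.primeCounting ⌊x + h x⌋₊ : ℝ) - Nat.primeCounting ⌊x⌋₊) := by
  unfold Rh
  rw [div_mul_eq_mul_div, le_div_iff₀ hh]

theorem Rh_ge_iff (h : ℝ → ℝ) (x V : ℝ) (hh : 0 < h x) : Rh h x ≤ V ↔
    Real.log x * ((Nat.primeCounting ⌊x + h x⌋₊ : ℝ) - Nat.primeCounting ⌊x⌋₊) ≤ V * h x := by
  unfold Rh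
  rw [div_mul_eq_mul_div, div_le_iff₀ hh]

/-- from a poor integer to a small value -/
theorem point_down (h : ℝ → ℝ) (V T : ℝ) (m : ℕ) (hh : 0 < h m) (hT : h m ≤ T)
    (hp : PoorT V T m) : Rh h m ≤ V := by
  have h1 := hp (h m) hh hT
  rw [set_ioc m _ hh.le] at h1
  rw [Rh_ge_iff h _ V hh, add_comm (m : ℝ), Nat.floor_add_natCast hh.le, Nat.floor_natCast,
    add_comm _ m, pc_add]
  push_cast
  rw [add_sub_cancel_left]
  exact h1

theorem Rh_nonneg (h : ℝ → ℝ) (hh : Pos h) : ∀ᶠ x : ℝ in atTop, 0 ≤ Rh h x := by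
  obtain ⟨c, hc, hh⟩ := hh
  filter_upwards [hh, eventually_ge_atTop (1:ℝ)] with x hx h1
  unfold Rh
  have h2 : 0 < h x := by linarith
  have h3 : 0 ≤ Real.log x := Real.log_nonneg h1
  have h4 : (Nat.primeCounting ⌊x⌋₊ : ℝ) ≤ Nat.primeCounting ⌊x + h x⌋₊ := by
    exact_mod_cast Nat.monotone_primeCounting (Nat.floor_mono (by linarith))
  exact mul_nonneg (by positivity) (by linarith)

theorem large_of_below (h H : ℝ → ℝ) (hh : Pos h) (hH : Below h H) (K : ℝ) :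
    ∀ᶠ x : ℝ in atTop, K ≤ H x := by
  obtain ⟨c, hc, hh⟩ := hh
  have hK : 0 < |K| + 1 := by positivity
  filter_upwards [hh, hH (c / (|K| + 1)) (by positivity)] with x h1 h2
  have h3 := h2.2 x (by linarith) (by linarith [h2.1])
  have h4 : c ≤ c / (|K| + 1) * H x := h1.trans h3
  rw [div_mul_eq_mul_div, le_div_iff₀ hK] at h4
  have h5 := le_of_mul_le_mul_left h4 hc
  have := le_abs_self K
  linarith

/-- **Comparison, upper limits.** -/
theorem freq_up (h H : ℝ → ℝ) (hh : Pos h) (hH : Below h H) (V₁ V' : ℝ) (hV₁ : 0 < V₁)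
    (hVV : V₁ < V') (hf : ∃ᶠ x : ℝ in atTop, V' ≤ Rh H x) : ∃ᶠ x : ℝ in atTop, V₁ ≤ Rh h x := by
  obtain ⟨c, hc, hhc⟩ := id hh
  obtain ⟨V, hV⟩ : ∃ V : ℝ, V = (V₁ + V') / 2 := ⟨_, rfl⟩
  obtain ⟨κ, K, hκ, hg⟩ := rich_gen V V' (by linarith) (by linarith)
  obtain ⟨η, hη0, hη1, hpt⟩ := point_up c V V₁ hc hV₁ (by linarith)
  obtain ⟨N, hN⟩ := eventually_atTop.1 hpt
  obtain ⟨x₁, hx₁⟩ := eventually_atTop.1 hhc
  rw [frequently_atTop]
  intro a
  have hev := hf.and_eventually (hg.and ((large_of_below h H hh hH (max K 1)).and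
    ((hH κ hκ).and (eventually_ge_atTop (max (max (N : ℝ) x₁) a + 1)))))
  obtain ⟨x, e1, e2, e3, e4, e5⟩ := hev.exists
  have m1 := le_max_left K 1
  have m2 := le_max_right K 1
  have m3 := le_max_left (max (N : ℝ) x₁) a
  have m4 := le_max_right (max (N : ℝ) x₁) a
  have m5 := le_max_left (N : ℝ) x₁
  have m6 := le_max_right (N : ℝ) x₁
  obtain ⟨p, hp1, hp2, hp3⟩ := e2 (H x) (by linarith) ((Rh_le_iff H x V' (by linarith)).1 e1)
  have hpN : N ≤ p := by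
    have : (N : ℝ) < p := by linarith
    exact_mod_cast this.le
  have k1 : h (p - η) ≤ κ * H x := e4.2 _ (by linarith) (by linarith)
  have k2 : c ≤ h (p - η) := hx₁ _ (by linarith)
  refine ⟨p - η, by linarith, ?_⟩
  rw [Rh_le_iff h _ _ (by linarith)]
  exact hN p hpN _ hp3 _ k2 k1

/-- **Comparison, lower limits.** -/
theorem freq_down (h H : ℝ → ℝ) (hh : Pos h) (hH : Below h H) (hHx : ∀ᶠ x : ℝ in atTop, H x ≤ x)
    (V V' : ℝ) (hVV : V' < V) (hf : ∃ᶠ x : ℝ in atTop, Rh H x ≤ V') :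
    ∃ᶠ x : ℝ in atTop, Rh h x ≤ V := by
  obtain ⟨c, hc, hhc⟩ := id hh
  obtain ⟨κ, K, hκ, hg⟩ := poor_gen V V' hVV
  obtain ⟨x₁, hx₁⟩ := eventually_atTop.1 hhc
  rw [frequently_atTop]
  intro a
  have hev := hf.and_eventually (hg.and ((large_of_below h H hh hH (max K 1)).and
    ((hH κ hκ).and ((eventually_ge_atTop (max x₁ a + 1)).and hHx))))
  obtain ⟨x, e1, e2, e3, e4, e5, e6⟩ := hev.exists
  have m1 := le_max_left K 1
  have m2 := le_max_right K 1
  have m3 := le_max_left x₁ a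
  have m4 := le_max_right x₁ a
  obtain ⟨m, hm1, hm2, hm3⟩ := e2 (H x) (by linarith) e6 ((Rh_ge_iff H x V' (by linarith)).1 e1)
  have k2 : c ≤ h m := hx₁ _ (by linarith)
  exact ⟨m, by linarith, point_down h V _ m (by linarith) (e4.2 _ (by linarith) hm2) hm3⟩

/-- **Comparison, upper limits.** -/
theorem U_le (h H : ℝ → ℝ) (hh : Pos h) (hH : Below h H) : U H ≤ U h := by
  rw [← EReal.ge_of_forall_gt_iff_ge]
  intro z hz
  obtain ⟨z', hz1, hz2⟩ := EReal.lt_iff_exists_real_btwn.1 hz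
  have hzz : z < z' := by exact_mod_cast hz1
  rcases le_or_gt z 0 with h0 | h0
  · refine le_limsup_of_frequently_le ?_
    refine ((Rh_nonneg h hh).mono fun x hx => ?_).frequently
    exact_mod_cast h0.trans hx
  · have h1 : ∃ᶠ x : ℝ in atTop, z' ≤ Rh H x := by
      refine (frequently_lt_of_lt_limsup (by isBoundedDefault) hz2).mono fun x hx => ?_
      exact_mod_cast hx.le
    have h3 := freq_up h H hh hH z z' h0 hzz h1
    refine le_limsup_of_frequently_le (h3.mono fun x hx => ?_)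
    exact_mod_cast hx

/-- **Comparison, lower limits.** -/
theorem L_le (h H : ℝ → ℝ) (hh : Pos h) (hH : Below h H) (hHx : ∀ᶠ x : ℝ in atTop, H x ≤ x) :
    L h ≤ L H := by
  rw [← EReal.le_of_forall_lt_iff_le]
  intro z hz
  obtain ⟨z', hz1, hz2⟩ := EReal.lt_iff_exists_real_btwn.1 hz
  have hzz : z' < z := by exact_mod_cast hz2
  have h1 : ∃ᶠ x : ℝ in atTop, Rh H x ≤ z' := by
    refine (frequently_lt_of_liminf_lt (by isBoundedDefault) hz1).mono fun x hx => ?_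
    exact_mod_cast hx.le
  have h3 := freq_down h H hh hH hHx z z' hzz h1
  refine liminf_le_of_frequently_le (h3.mono fun x hx => ?_)
  exact_mod_cast hx

end Pool.Agent.W5h31.UM
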