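import Pool.Agent.W5h31.UM.UM6
import Pool.Agent.W5h31.UM.UM4

/-!
# Functions of at most polylogarithmic growth, and the question
-/

set_option autoImplicit false

open Finset Filter Topology

namespace Pool.Agent.W5h31.UM

theorem pos_pw (a : ℝ) (ha : 0 ≤ a) : Pos (pw a) := by
  refine ⟨1, one_pos, ?_⟩
  filter_upwards [ev_pow 1 1 one_pos] with x hx
  rw [Real.rpow_one] at hx
  exact Real.one_le_rpow hx ha

theorem below_pw (A b : ℝ) (hA : 0 < A) (hb : A < b) (h : ℝ → ℝ)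
    (hh : ∀ᶠ x : ℝ in atTop, h x ≤ Real.log x ^ A) : Below h (pw b) := by
  intro ε hε
  obtain ⟨x₀, hx₀⟩ := eventually_atTop.1 hh
  filter_upwards [pow_cmp A b ε hA hb hε, eventually_ge_atTop (max x₀ 1 + 1)] with x h1 h2
  have m1 := le_max_left x₀ 1
  have m2 := le_max_right x₀ 1
  refine ⟨Real.rpow_nonneg (Real.log_nonneg (by linarith)) _, fun y hy1 hy2 => ?_⟩
  exact (hx₀ y (by linarith)).trans (h1 y (by linarith) hy2)

theorem pw_le (b : ℝ) : ∀ᶠ x : ℝ in atTop, pw b x ≤ x := by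
  filter_upwards [ev_small b] with x hx
  unfold pw
  linarith

/-- **Uniform oscillation for all functions `h ≤ (log x) ^ A`.** -/
theorem uniform (A : ℝ) (hA : 0 < A) : ∃ δ : ℝ, 0 < δ ∧ ∀ h : ℝ → ℝ, Pos h →
    (∀ᶠ x : ℝ in atTop, h x ≤ Real.log x ^ A) →
      ((1 + δ : ℝ) : EReal) ≤ U h ∧ L h ≤ ((1 - δ : ℝ) : EReal) := by
  obtain ⟨δ₁, hδ₁, h1⟩ := many_up (A + 1) 1 (by linarith) one_pos
  obtain ⟨δ₂, hδ₂, h2⟩ := many_down (A + 1) 1 (by linarith) one_pos
  have h1' := freq_of_many _ _ _ h1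
  have h2' := freq_of_many _ _ _ h2
  refine ⟨min δ₁ δ₂, lt_min hδ₁ hδ₂, fun h hp hh => ?_⟩
  have hb := below_pw A (A + 1) hA (by linarith) h hh
  have m1 := min_le_left δ₁ δ₂
  have m2 := min_le_right δ₁ δ₂
  constructor
  · refine le_trans ?_ (U_le h (pw (A + 1)) hp hb)
    refine le_limsup_of_frequently_le ?_
    refine Tendsto.frequently tendsto_natCast_atTop_atTop (h1'.mono fun n hn => ?_)
    have h4 : 1 + min δ₁ δ₂ ≤ Rh (pw (A + 1)) n := by
      rw [Rh_pw]
      linarith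
    exact_mod_cast h4
  · refine le_trans (L_le h (pw (A + 1)) hp hb (pw_le _)) ?_
    refine liminf_le_of_frequently_le ?_
    refine Tendsto.frequently tendsto_natCast_atTop_atTop (h2'.mono fun n hn => ?_)
    have h4 : Rh (pw (A + 1)) n ≤ 1 - min δ₁ δ₂ := by
      rw [Rh_pw]
      linarith
    exact_mod_cast h4

/-- `c ≤ h(x) ≤ (log x) ^ A` for all large `x`, for some `c > 0` and some `A` -/
def Poly (h : ℝ → ℝ) : Prop := Pos h ∧ ∃ A : ℝ, ∀ᶠ x : ℝ in atTop, h x ≤ Real.log x ^ A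

theorem poly_pos (h : ℝ → ℝ) (hh : Poly h) :
    Pos h ∧ ∃ A : ℝ, 0 < A ∧ ∀ᶠ x : ℝ in atTop, h x ≤ Real.log x ^ A := by
  obtain ⟨h1, A, h2⟩ := hh
  refine ⟨h1, max A 1, lt_of_lt_of_le one_pos (le_max_right _ _), ?_⟩
  filter_upwards [h2, ev_pow 1 1 one_pos] with x hx hl
  rw [Real.rpow_one] at hl
  exact hx.trans (Real.rpow_le_rpow_of_exponent_le hl (le_max_left _ _))

/-- **The question in terms of all functions of at most polylogarithmic growth.** -/
theorem Q1_inf : Q1 ↔ (⨅ (h : ℝ → ℝ) (_ : Poly h), U h) = 1 ∧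
    (⨆ (h : ℝ → ℝ) (_ : Poly h), L h) = 1 := by
  have hU : ∀ h, Poly h → (1 : EReal) ≤ U h := by
    intro h hh
    obtain ⟨h1, A, hA, h2⟩ := poly_pos h hh
    obtain ⟨δ, hδ, h3⟩ := uniform A hA
    refine le_trans ?_ (h3 h h1 h2).1
    exact_mod_cast (by linarith : (1:ℝ) ≤ 1 + δ)
  have hL : ∀ h, Poly h → L h ≤ (1 : EReal) := by
    intro h hh
    obtain ⟨h1, A, hA, h2⟩ := poly_pos h hh
    obtain ⟨δ, hδ, h3⟩ := uniform A hA
    refine le_trans (h3 h h1 h2).2 ?_
    exact_mod_cast (by linarith : (1:ℝ) - δ ≤ 1)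
  constructor
  · intro hQ
    have key : ∀ ε : ℝ, 0 < ε → ∃ a : ℝ, 0 < a ∧ U (pw a) ≤ ((1 + ε : ℝ) : EReal) ∧
        ((1 - ε : ℝ) : EReal) ≤ L (pw a) := by
      intro ε hε
      obtain ⟨a₀, ha₀⟩ := hQ ε hε
      have h1 := ha₀ (max a₀ 1) (le_max_left _ _)
      refine ⟨max a₀ 1, lt_of_lt_of_le one_pos (le_max_right _ _), ?_, ?_⟩
      · refine limsup_le_of_le (by isBoundedDefault) ?_
        filter_upwards [h1] with x hx
        rw [abs_le] at hx
        have : Rh (pw (max a₀ 1)) x ≤ 1 + ε := by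
          rw [Rh_pw]
          linarith
        exact_mod_cast this
      · refine le_liminf_of_le (by isBoundedDefault) ?_
        filter_upwards [h1] with x hx
        rw [abs_le] at hx
        have : 1 - ε ≤ Rh (pw (max a₀ 1)) x := by
          rw [Rh_pw]
          linarith
        exact_mod_cast this
    have hPoly : ∀ a : ℝ, 0 < a → Poly (pw a) := fun a ha =>
      ⟨pos_pw a ha.le, a, Eventually.of_forall fun x => le_rfl⟩
    constructor
    · apply le_antisymm
      · rw [← EReal.le_of_forall_lt_iff_le]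
        intro z hz
        have hz' : 1 < z := by exact_mod_cast hz
        obtain ⟨a, ha, h1, -⟩ := key (z - 1) (by linarith)
        refine (iInf₂_le (pw a) (hPoly a ha)).trans (h1.trans ?_)
        exact_mod_cast (by linarith : 1 + (z - 1) ≤ z)
      · exact le_iInf₂ hU
    · apply le_antisymm
      · exact iSup₂_le hL
      · rw [← EReal.ge_of_forall_gt_iff_ge]
        intro z hz
        have hz' : z < 1 := by exact_mod_cast hz
        obtain ⟨a, ha, -, h1⟩ := key (1 - z) (by linarith)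
        refine le_trans ?_ (h1.trans (le_iSup₂ (f := fun h (_ : Poly h) => L h) (pw a)
          (hPoly a ha)))
        exact_mod_cast (by linarith : z ≤ 1 - (1 - z))
  · rintro ⟨hI, hS⟩ ε hε
    have h1 : (⨅ (h : ℝ → ℝ) (_ : Poly h), U h) < ((1 + ε : ℝ) : EReal) := by
      rw [hI]
      exact_mod_cast (by linarith : (1:ℝ) < 1 + ε)
    have h2 : ((1 - ε : ℝ) : EReal) < (⨆ (h : ℝ → ℝ) (_ : Poly h), L h) := by
      rw [hS]
      exact_mod_cast (by linarith : (1:ℝ) - ε < 1)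
    obtain ⟨f, hf⟩ := iInf_lt_iff.1 h1
    obtain ⟨hf1, hf2⟩ := iInf_lt_iff.1 hf
    obtain ⟨g, hg⟩ := lt_iSup_iff.1 h2
    obtain ⟨hg1, hg2⟩ := lt_iSup_iff.1 hg
    obtain ⟨hfp, A, hA, hfA⟩ := poly_pos f hf1
    obtain ⟨hgp, B, hB, hgB⟩ := poly_pos g hg1
    refine ⟨max A B + 1, fun a ha => ?_⟩
    have m1 := le_max_left A B
    have m2 := le_max_right A B
    have k1 : U (pw a) < ((1 + ε : ℝ) : EReal) :=
      lt_of_le_of_lt (U_le f (pw a) hfp (below_pw A a hA (by linarith) f hfA)) hf2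
    have k2 : ((1 - ε : ℝ) : EReal) < L (pw a) :=
      lt_of_lt_of_le hg2 (L_le g (pw a) hgp (below_pw B a hB (by linarith) g hgB) (pw_le _))
    filter_upwards [eventually_lt_of_limsup_lt k1, eventually_lt_of_lt_liminf k2] with x hx1 hx2
    have hx1' : R a x < 1 + ε := by exact_mod_cast hx1
    have hx2' : 1 - ε < R a x := by exact_mod_cast hx2
    rw [abs_le]
    constructor <;> linarith

end Pool.Agent.W5h31.UM
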