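import Pool.Agent.W5h31.UM.UM7

/-!
# The limits `lim U_a`, `lim L_a` as an infimum and a supremum over all functions
-/

set_option autoImplicit false

open Finset Filter Topology

namespace Pool.Agent.W5h31.UM

theorem poly_pw (a : ℝ) (ha : 0 < a) : Poly (pw a) :=
  ⟨pos_pw a ha.le, a, Eventually.of_forall fun _ => le_rfl⟩

/-- `lim U_a` is the infimum of `U(h)` over all `h` of at most polylogarithmic growth. -/
theorem lim_U : Tendsto (fun a : ℝ => U (pw a)) atTop (𝓝 (⨅ (h : ℝ → ℝ) (_ : Poly h), U h)) := by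
  rw [tendsto_order]
  constructor
  · intro z hz
    filter_upwards [eventually_gt_atTop (0:ℝ)] with a ha
    exact lt_of_lt_of_le hz (iInf₂_le (pw a) (poly_pw a ha))
  · intro z hz
    obtain ⟨f, hf⟩ := iInf_lt_iff.1 hz
    obtain ⟨hf1, hf2⟩ := iInf_lt_iff.1 hf
    obtain ⟨hfp, A, hA, hfA⟩ := poly_pos f hf1
    filter_upwards [eventually_gt_atTop A] with a ha
    exact lt_of_le_of_lt (U_le f (pw a) hfp (below_pw A a hA ha f hfA)) hf2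

/-- `lim L_a` is the supremum of `L(h)` over all `h` of at most polylogarithmic growth. -/
theorem lim_L : Tendsto (fun a : ℝ => L (pw a)) atTop (𝓝 (⨆ (h : ℝ → ℝ) (_ : Poly h), L h)) := by
  rw [tendsto_order]
  constructor
  · intro z hz
    obtain ⟨g, hg⟩ := lt_iSup_iff.1 hz
    obtain ⟨hg1, hg2⟩ := lt_iSup_iff.1 hg
    obtain ⟨hgp, A, hA, hgA⟩ := poly_pos g hg1
    filter_upwards [eventually_gt_atTop A] with a ha
    exact lt_of_lt_of_le hg2 (L_le g (pw a) hgp (below_pw A a hA ha g hgA) (pw_le _))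
  · intro z hz
    filter_upwards [eventually_gt_atTop (0:ℝ)] with a ha
    exact lt_of_le_of_lt (le_iSup₂ (f := fun h (_ : Poly h) => L h) (pw a) (poly_pw a ha)) hz

/-- the question: `lim L_a = 1 = lim U_a` -/
def Question : Prop :=
  Tendsto (fun a : ℝ => L (pw a)) atTop (𝓝 1) ∧ Tendsto (fun a : ℝ => U (pw a)) atTop (𝓝 1)

theorem question_inf : Question ↔ (⨅ (h : ℝ → ℝ) (_ : Poly h), U h) = 1 ∧
    (⨆ (h : ℝ → ℝ) (_ : Poly h), L h) = 1 := by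
  constructor
  · rintro ⟨h1, h2⟩
    exact ⟨tendsto_nhds_unique lim_U h2, tendsto_nhds_unique lim_L h1⟩
  · rintro ⟨h1, h2⟩
    exact ⟨h2 ▸ lim_L, h1 ▸ lim_U⟩

/-- **Five forms of the question.** -/
theorem tfae : [Question,
    ∀ ε : ℝ, 0 < ε → ∃ a₀ : ℝ, ∀ a : ℝ, a₀ ≤ a → ∀ᶠ x : ℝ in atTop, |Rh (pw a) x - 1| ≤ ε,
    (⨅ (h : ℝ → ℝ) (_ : Poly h), U h) = 1 ∧ (⨆ (h : ℝ → ℝ) (_ : Poly h), L h) = 1,
    ∀ ε : ℝ, 0 < ε → ∃ A : ℝ, ∀ᶠ q : ℕ in atTop, ¬ Rich (1 + ε) A q ∧ ¬ Poor (1 - ε) A q,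
    ∀ ε : ℝ, 0 < ε → ∃ A : ℝ, ∀ᶠ n : ℕ in atTop,
      ¬ GapRich (1 + ε) A n ∧ ¬ GapPoor (1 - ε) A n].TFAE := by
  have h23 : (∀ ε : ℝ, 0 < ε → ∃ a₀ : ℝ, ∀ a : ℝ, a₀ ≤ a →
    ∀ᶠ x : ℝ in atTop, |Rh (pw a) x - 1| ≤ ε) ↔ Q1 := Iff.rfl
  tfae_have 1 ↔ 3 := question_inf
  tfae_have 2 ↔ 3 := h23.trans Q1_inf
  tfae_have 2 ↔ 4 := h23.trans Q1_iff
  tfae_have 2 ↔ 5 := h23.trans Q1_gaps
  tfae_finish

end Pool.Agent.W5h31.UM
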