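import Pool.Agent.W5h31.UM.UM8

/-!
# Uniform oscillation: final form
-/

set_option autoImplicit false

open Finset Filter Topology

namespace Pool.Agent.W5h31.UM

theorem monoV_rich {V V' A : ℝ} {q : ℕ} (hV : V ≤ V') (h : Rich V' A q) : Rich V A q :=
  fun t ht htT => (mul_le_mul_of_nonneg_right hV ht.le).trans (h t ht htT)

theorem monoV_poor {V V' A : ℝ} {q : ℕ} (hV : V ≤ V') (h : Poor V A q) : Poor V' A q :=
  fun t ht htT => (h t ht htT).trans (mul_le_mul_of_nonneg_right hV ht.le)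

theorem fin_set (X K : ℝ) (f : ℕ → ℕ) (hf : ∀ n, n ≤ f n) (P : ℕ → Prop) :
    {n : ℕ | X < f n ∧ (f n : ℝ) < K * X ∧ P n}.Finite := by
  refine (Set.finite_Iic ⌊K * X⌋₊).subset fun n hn => ?_
  have h1 : f n ≤ ⌊K * X⌋₊ := Nat.le_floor hn.2.1.le
  exact (hf n).trans h1

/-- rich integers are prime -/
theorem rich_prime (V A : ℝ) (m : ℕ) (hm : 1 ≤ m) (hV : 0 < V) (hl : 0 < Real.log m)
    (h : Rich V A m) : m.Prime := by
  have hT : 0 < min (Real.log m ^ A) 1 := lt_min (Real.rpow_pos_of_pos hl A) one_pos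
  have h4 := h (min (Real.log m ^ A) 1) hT (min_le_left _ _)
  rw [set_ico m hm] at h4
  have hc : ⌈min (Real.log m ^ A) 1⌉₊ ≤ 1 := Nat.ceil_le.2 (by
    rw [Nat.cast_one]
    exact min_le_right _ _)
  have h5 : cp (m - 1) ⌈min (Real.log m ^ A) 1⌉₊ ≠ 0 := by
    intro h6
    rw [h6, Nat.cast_zero, mul_zero] at h4
    nlinarith
  unfold cp at h5
  obtain ⟨q, hq⟩ := card_ne_zero.1 h5
  rw [mem_filter, mem_Ioc] at hq
  have : q = m := by omega
  rw [← this]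
  exact hq.2

theorem osc (A ε : ℝ) (hA : 0 < A) (hε : 0 < ε) : ∃ δ : ℝ, 0 < δ ∧
    (∀ h : ℝ → ℝ, Pos h → (∀ᶠ x : ℝ in atTop, h x ≤ Real.log x ^ A) →
      ((1 + δ : ℝ) : EReal) ≤ U h ∧ L h ≤ ((1 - δ : ℝ) : EReal)) ∧
    (∀ᶠ X : ℝ in atTop,
      X * Real.exp (-(Real.log X) ^ ε) ≤
        ({q : ℕ | X < q ∧ (q : ℝ) < 4 * X ∧ Rich (1 + δ) A q}.ncard : ℝ) ∧
      X * Real.exp (-(Real.log X) ^ ε) ≤
        ({q : ℕ | X < q ∧ (q : ℝ) < 4 * X ∧ Poor (1 - δ) A q}.ncard : ℝ) ∧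
      X * Real.exp (-(Real.log X) ^ ε) ≤
        ({n : ℕ | X < p n ∧ (p n : ℝ) < 4 * X ∧ GapRich (1 + δ) A n}.ncard : ℝ)) ∧
    ∃ᶠ n : ℕ in atTop, GapPoor (1 - δ) A n := by
  obtain ⟨δ₁, hδ₁, h1⟩ := uniform A hA
  obtain ⟨δ₂, hδ₂, h2⟩ := many_rich (A + 1) ε (by linarith) hε
  obtain ⟨δ₃, hδ₃, h3⟩ := many_poor (A + 2) ε (by linarith) hε
  obtain ⟨δ, hδ⟩ : ∃ δ : ℝ, δ = min (min δ₁ δ₂) (min δ₃ (1 / 2)) := ⟨_, rfl⟩
  have e1 : δ ≤ δ₁ := by rw [hδ]; exact (min_le_left _ _).trans (min_le_left _ _)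
  have e2 : δ ≤ δ₂ := by rw [hδ]; exact (min_le_left _ _).trans (min_le_right _ _)
  have e3 : δ ≤ δ₃ := by rw [hδ]; exact (min_le_right _ _).trans (min_le_left _ _)
  have e4 : δ ≤ 1 / 2 := by rw [hδ]; exact (min_le_right _ _).trans (min_le_right _ _)
  have e0 : 0 < δ := by
    rw [hδ]
    exact lt_min (lt_min hδ₁ hδ₂) (lt_min hδ₃ (by norm_num))
  have hlog : ∀ᶠ X : ℝ in atTop, ∀ q : ℕ, X < q → 2 ≤ Real.log q := by
    filter_upwards [ev_pow 1 2 one_pos, eventually_ge_atTop (1:ℝ)] with X hX hX1 q hq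
    rw [Real.rpow_one] at hX
    exact hX.trans (Real.log_le_log (by linarith) hq.le)
  refine ⟨δ, e0, fun h hp hh => ?_, ?_, ?_⟩
  · obtain ⟨k1, k2⟩ := h1 h hp hh
    refine ⟨le_trans ?_ k1, k2.trans ?_⟩
    · exact_mod_cast (by linarith : 1 + δ ≤ 1 + δ₁)
    · exact_mod_cast (by linarith : 1 - δ₁ ≤ 1 - δ)
  · filter_upwards [h2, h3, hlog, eventually_ge_atTop (1:ℝ)] with X k2 k3 k4 k5
    refine ⟨k2.trans ?_, k3.trans ?_, k2.trans ?_⟩
    · have : {q : ℕ | X < q ∧ (q : ℝ) < 4 * X ∧ Rich (1 + δ₂) (A + 1) q} ⊆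
          {q : ℕ | X < q ∧ (q : ℝ) < 4 * X ∧ Rich (1 + δ) A q} := by
        rintro q ⟨q1, q2, q3⟩
        have := k4 q q1
        exact ⟨q1, q2, monoV_rich (by linarith) (mono_rich (by linarith) (by linarith) q3)⟩
      exact_mod_cast Set.ncard_le_ncard this (fin_set X 4 id (fun _ => le_rfl) _)
    · have : {q : ℕ | X < q ∧ (q : ℝ) < 4 * X ∧ Poor (1 - δ₃) (A + 2) q} ⊆
          {q : ℕ | X < q ∧ (q : ℝ) < 4 * X ∧ Poor (1 - δ) A q} := by
        rintro q ⟨q1, q2, q3⟩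
        have := k4 q q1
        exact ⟨q1, q2, monoV_poor (by linarith) (mono_poor (by linarith) (by linarith) q3)⟩
      exact_mod_cast Set.ncard_le_ncard this (fin_set X 4 id (fun _ => le_rfl) _)
    · have hsub : {q : ℕ | X < q ∧ (q : ℝ) < 4 * X ∧ Rich (1 + δ₂) (A + 1) q} ⊆
          p '' {n : ℕ | X < p n ∧ (p n : ℝ) < 4 * X ∧ GapRich (1 + δ) A n} := by
        rintro q ⟨q1, q2, q3⟩
        have hlq := k4 q q1
        have hq1 : 1 ≤ q := by
          have : (1:ℝ) < q := by linarith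
          exact_mod_cast this.le
        have hqp := rich_prime _ _ q hq1 (by linarith) (by linarith) q3
        refine ⟨Nat.count Nat.Prime q, ?_, Nat.nth_count hqp⟩
        have hpq : p (Nat.count Nat.Prime q) = q := Nat.nth_count hqp
        refine ⟨by rw [hpq]; exact q1, by rw [hpq]; exact q2, ?_⟩
        refine g1 _ A _ (by linarith) (by rw [hpq]; linarith) ?_
        rw [hpq]
        exact monoV_rich (by linarith) q3
      have hfin := fin_set X 4 p le_p (GapRich (1 + δ) A)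
      have h5 := Set.ncard_le_ncard hsub (hfin.image p)
      exact_mod_cast h5.trans (Set.ncard_image_le hfin)
  · have hf := freq_of_many _ _ _ h3
    rw [frequently_atTop]
    intro N
    have h5 := hf.and_eventually ((eventually_ge_atTop (p (N + 2))).and
      ((eventually_ge_atTop 2).and (ev_nat (ev_pow 1 2 one_pos))))
    obtain ⟨m, m1, m2, m3, m4⟩ := h5.exists
    rw [Real.rpow_one] at m4
    have m5 := (p_le_iff (N + 2) m).1 m2
    refine ⟨Nat.primeCounting m - 1, by omega, ?_⟩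
    exact g3 (1 - δ) A m hA.le m3 (by nlinarith) (by linarith) (monoV_poor (by linarith) m1)

end Pool.Agent.W5h31.UM
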